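import Mathlib

set_option autoImplicit false

/-!
# Matrices for the functions on a curve

A domain which is generated by finitely many algebraic elements over a polynomial ring in two variables
has a maximal linearly independent family which contains `1`; multiplication by the generators is given
by matrices over the polynomial ring, up to a common denominator.
-/

namespace Pool.Agent.K6.H53.GP

open MvPolynomial

variable {K : Type} [Field K]

theorem exists_family {R : Type} [CommRing R] [IsDomain R] [Algebra K R]
    (φ : MvPolynomial (Fin 2) K →ₐ[K] R) (hφ : Function.Injective φ) {n : ℕ} (ξ : Fin n → R)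
    (hgen : Algebra.adjoin K (Set.range ξ) = ⊤)
    (halg : ∀ l, ∃ q : Polynomial (MvPolynomial (Fin 2) K), q ≠ 0 ∧ q.eval₂ φ.toRingHom (ξ l) = 0) :
    ∃ (D : ℕ) (b : Fin D → R) (s0 : Fin D), b s0 = 1 ∧
      (∀ c : Fin D → MvPolynomial (Fin 2) K, ∑ s, φ (c s) * b s = 0 → c = 0) ∧
      ∃ (a : MvPolynomial (Fin 2) K)
        (U : Fin n → Matrix (Fin D) (Fin D) (MvPolynomial (Fin 2) K)), a ≠ 0 ∧
        ∀ l r, (φ a * ξ l) * b r = ∑ s, φ (U l r s) * b s := by
  classical
  let : Algebra (MvPolynomial (Fin 2) K) R := φ.toRingHom.toAlgebra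
  have hmap : ∀ x, algebraMap (MvPolynomial (Fin 2) K) R x = φ x := fun x => rfl
  have : IsScalarTower K (MvPolynomial (Fin 2) K) R :=
    IsScalarTower.of_algebraMap_eq fun x => by
      rw [hmap, MvPolynomial.algebraMap_eq]
      exact (φ.commutes x).symm
  have : FaithfulSMul (MvPolynomial (Fin 2) K) R :=
    (faithfulSMul_iff_algebraMap_injective _ _).2 hφ
  have : Module.IsTorsionFree (MvPolynomial (Fin 2) K) R := inferInstance
  have halgR : Algebra.IsAlgebraic (MvPolynomial (Fin 2) K) R := by
    refine ⟨fun x => ?_⟩
    have hx : x ∈ Algebra.adjoin K (Set.range ξ) := by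
      rw [hgen]
      trivial
    induction hx using Algebra.adjoin_induction with
    | mem x hx =>
      obtain ⟨l, rfl⟩ := hx
      obtain ⟨q, hq, hq0⟩ := halg l
      exact ⟨q, hq, hq0⟩
    | algebraMap r =>
      rw [IsScalarTower.algebraMap_apply K (MvPolynomial (Fin 2) K) R]
      exact isAlgebraic_algebraMap _
    | add x y _ _ hx hy => exact hx.add hy
    | mul x y _ _ hx hy => exact hx.mul hy
  let F := FractionRing (MvPolynomial (Fin 2) K)
  let L := FractionRing R
  have : Module.IsTorsionFree (MvPolynomial (Fin 2) K) L := inferInstance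
  let : Algebra F L := FractionRing.liftAlgebra (MvPolynomial (Fin 2) K) L
  have : IsScalarTower (MvPolynomial (Fin 2) K) F L :=
    FractionRing.isScalarTower_liftAlgebra (MvPolynomial (Fin 2) K) L
  have : Algebra.FiniteType K R := ⟨⟨Finset.univ.image ξ, by simpa using hgen⟩⟩
  have : Algebra.EssFiniteType R L := Algebra.EssFiniteType.of_isLocalization L (nonZeroDivisors R)
  have : Algebra.EssFiniteType K L := Algebra.EssFiniteType.comp K R L
  have : IsScalarTower K (MvPolynomial (Fin 2) K) L := by
    refine IsScalarTower.of_algebraMap_eq fun x => ?_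
    rw [IsScalarTower.algebraMap_apply K R L, IsScalarTower.algebraMap_apply
      (MvPolynomial (Fin 2) K) R L, IsScalarTower.algebraMap_apply K (MvPolynomial (Fin 2) K) R]
  have : IsScalarTower K F L := by
    refine IsScalarTower.of_algebraMap_eq fun x => ?_
    rw [IsScalarTower.algebraMap_apply K (MvPolynomial (Fin 2) K) L,
      IsScalarTower.algebraMap_apply (MvPolynomial (Fin 2) K) F L,
      IsScalarTower.algebraMap_apply K (MvPolynomial (Fin 2) K) F]
  have : Algebra.EssFiniteType F L := Algebra.EssFiniteType.of_comp K F L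
  have : Algebra.IsAlgebraic (MvPolynomial (Fin 2) K) L :=
    (IsFractionRing.isAlgebraic_iff' (MvPolynomial (Fin 2) K) R L).1 inferInstance
  have : Algebra.IsAlgebraic F L :=
    ⟨fun _ ↦ (IsFractionRing.isAlgebraic_iff (MvPolynomial (Fin 2) K) F L).1
      (Algebra.IsAlgebraic.isAlgebraic _)⟩
  have : Module.Finite F L := Algebra.finite_of_essFiniteType_of_isAlgebraic
  -- the family
  have hs : LinearIndepOn F id ({1} : Set L) := by
    rw [linearIndepOn_singleton_iff]
    exact one_ne_zero
  obtain ⟨B, hBt, h1B, hspan, hind⟩ := exists_linearIndepOn_id_extension hs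
    (t := Set.range (algebraMap R L)) (by
      rintro _ rfl
      exact ⟨1, map_one _⟩)
  have hBfin : B.Finite := by
    have h2 : LinearIndependent F (fun x : B => (x : L)) := hind
    exact h2.setFinite
  obtain ⟨D, e⟩ : ∃ D, Nonempty (Fin D ≃ B) := by
    have := hBfin.fintype
    exact ⟨Fintype.card B, ⟨(Fintype.equivFin B).symm⟩⟩
  obtain ⟨e⟩ := e
  choose β hβ using fun s : Fin D => hBt (e s).2
  have hinjL : Function.Injective (algebraMap R L) := IsFractionRing.injective R L
  have hinjF : Function.Injective (algebraMap (MvPolynomial (Fin 2) K) F) :=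
    IsFractionRing.injective _ F
  have hcomp : ∀ x : MvPolynomial (Fin 2) K, algebraMap R L (φ x) = algebraMap F L (algebraMap _ F x) :=
    fun x => by
      rw [← IsScalarTower.algebraMap_apply, ← hmap, ← IsScalarTower.algebraMap_apply]
  have hindF : LinearIndependent F (fun s : Fin D => (e s : L)) := by
    have h2 : LinearIndependent F (fun x : B => (x : L)) := hind
    exact h2.comp e e.injective
  refine ⟨D, β, e.symm ⟨1, h1B rfl⟩, ?_, ?_, ?_⟩
  · apply hinjL
    rw [hβ, Equiv.apply_symm_apply, map_one]
  · intro c hc
    have h3 : ∑ s, (algebraMap _ F (c s)) • (e s : L) = 0 := by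
      have h4 := congrArg (algebraMap R L) hc
      rw [map_sum, map_zero] at h4
      rw [← h4]
      refine Finset.sum_congr rfl fun s _ => ?_
      rw [map_mul, hβ, hcomp, Algebra.smul_def]
    have h5 := Fintype.linearIndependent_iff.1 hindF _ h3
    funext s
    exact hinjF ((h5 s).trans (map_zero _).symm)
  · -- the coefficients over the fraction field
    have hco : ∀ x : R, ∃ q : Fin D → F, algebraMap R L x = ∑ s, q s • (e s : L) := by
      intro x
      have h6 : algebraMap R L x ∈ Submodule.span F B := hspan ⟨x, rfl⟩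
      have h7 : B = Set.range (fun s : Fin D => (e s : L)) := by
        ext z
        constructor
        · intro hz
          exact ⟨e.symm ⟨z, hz⟩, by simp⟩
        · rintro ⟨s, rfl⟩
          exact (e s).2
      rw [h7, Submodule.mem_span_range_iff_exists_fun] at h6
      obtain ⟨q, hq⟩ := h6
      exact ⟨q, hq.symm⟩
    choose q hq using fun p : Fin n × Fin D => hco (ξ p.1 * β p.2)
    obtain ⟨a, ha⟩ := IsLocalization.exist_integer_multiples_of_finite
      (nonZeroDivisors (MvPolynomial (Fin 2) K))
      (fun t : (Fin n × Fin D) × Fin D => q t.1 t.2)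
    choose U hU using ha
    refine ⟨a, fun l r s => U ((l, r), s), nonZeroDivisors.ne_zero a.2, fun l r => ?_⟩
    apply hinjL
    rw [mul_assoc, map_mul, hq (l, r), map_sum, Finset.mul_sum]
    refine Finset.sum_congr rfl fun s _ => ?_
    rw [map_mul, hβ, hcomp, hcomp, hU, Algebra.smul_def, Algebra.smul_def, map_mul, mul_assoc]

end Pool.Agent.K6.H53.GP
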