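import Mathlib

set_option autoImplicit false

/-!
# Heights: from local bounds to global bounds
-/

namespace Pool.Agent.K6.H53.GP

open Height Height.AdmissibleAbsValues Function

variable {K : Type} [Field K] [AdmissibleAbsValues K]

lemma fin_supp {ι : Type} [Finite ι] {x : ι → K} (hx : x ≠ 0) :
    (fun v : nonarchAbsVal (K := K) ↦ ⨆ i, v.val (x i)).HasFiniteMulSupport := by
  classical
  have : Nonempty {j // x j ≠ 0} := nonempty_subtype.mpr <| ne_iff.mp hx
  suffices h : (fun v : nonarchAbsVal (K := K) ↦ ⨆ i : {j // x j ≠ 0}, v.val (x i)).HasFiniteMulSupport by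
    convert h using 2 with v
    obtain ⟨i, hi⟩ : ∃ j, x j ≠ 0 := Function.ne_iff.mp hx
    have : Nonempty ι := .intro i
    refine le_antisymm (ciSup_le fun j ↦ ?_) (ciSup_le fun ⟨j, hj⟩ ↦ Finite.le_ciSup_of_le j le_rfl)
    rcases eq_or_ne (x j) 0 with h | h
    · rw [h, v.val.map_zero]
      exact Real.iSup_nonneg' ⟨⟨i, hi⟩, v.val.nonneg ..⟩
    · exact Finite.le_ciSup_of_le ⟨j, h⟩ le_rfl
  have hfin : (⋃ i : {j // x j ≠ 0}, (fun v : nonarchAbsVal (K := K) ↦ v.val (x i)).mulSupport).Finite :=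
    Set.finite_iUnion fun i => hasFiniteMulSupport i.2
  refine hfin.subset fun v hv => ?_
  by_contra h
  simp only [Set.mem_iUnion, not_exists] at h
  apply hv
  have h1 : ∀ i : {j // x j ≠ 0}, v.val (x i) = 1 := fun i => by
    have := h i
    rwa [notMem_mulSupport] at this
  simp only [h1]
  exact ciSup_const

/-- Local bounds at all places give a bound of the height. -/
theorem glob {ι ι' : Type} [Finite ι] [Finite ι'] {x : ι → K} (hx : x ≠ 0) {c : ι' → K} (hc : c ≠ 0)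
    (κ : ℝ) (n : ℕ) (hκ : 0 ≤ κ)
    (h1 : ∀ v ∈ archAbsVal (K := K), ⨆ i, v (x i) ≤ (κ * ⨆ j, v (c j)) ^ n)
    (h2 : ∀ v ∈ nonarchAbsVal (K := K), ⨆ i, v (x i) ≤ (⨆ j, v (c j)) ^ n) :
    mulHeight x ≤ (κ ^ totalWeight K * mulHeight c) ^ n := by
  have hc0 : ∀ v : AbsoluteValue K ℝ, 0 ≤ ⨆ j, v (c j) := fun v =>
    Real.iSup_nonneg_of_nonnegHomClass v _
  have hx0 : ∀ v : AbsoluteValue K ℝ, 0 ≤ ⨆ j, v (x j) := fun v =>
    Real.iSup_nonneg_of_nonnegHomClass v _
  rw [mulHeight_eq hx, mulHeight_eq hc]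
  have e1 : ((archAbsVal (K := K)).map fun v ↦ ⨆ i, v (x i)).prod ≤
      ((archAbsVal (K := K)).map fun v ↦ (κ * ⨆ j, v (c j)) ^ n).prod :=
    Multiset.prod_map_le_prod_map₀ _ _ (fun v _ => hx0 v) fun v hv => h1 v hv
  have e2 : ((archAbsVal (K := K)).map fun v ↦ (κ * ⨆ j, v (c j)) ^ n).prod =
      (κ ^ totalWeight K * ((archAbsVal (K := K)).map fun v ↦ ⨆ j, v (c j)).prod) ^ n := by
    rw [Multiset.prod_map_pow, Multiset.prod_map_mul, Multiset.map_const', Multiset.prod_replicate,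
      totalWeight]
  have e3 : ∏ᶠ v : nonarchAbsVal (K := K), ⨆ i, v.val (x i) ≤
      (∏ᶠ v : nonarchAbsVal (K := K), ⨆ j, v.val (c j)) ^ n := by
    rw [finprod_pow (fin_supp hc)]
    refine finprod_le_finprod (fin_supp hx) (fun v => hx0 v.val) ?_ fun v => h2 v.val v.2
    exact (fin_supp hc).subset fun v hv hv1 => hv (by
      have : (⨆ j, v.val (c j)) = 1 := hv1
      simp [this])
  have p1 : 0 ≤ ((archAbsVal (K := K)).map fun v ↦ (κ * ⨆ j, v (c j)) ^ n).prod :=
    Multiset.prod_map_nonneg fun v _ => pow_nonneg (mul_nonneg hκ (hc0 v)) n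
  have p2 : 0 ≤ ∏ᶠ v : nonarchAbsVal (K := K), ⨆ i, v.val (x i) :=
    finprod_nonneg fun v => hx0 v.val
  calc _ ≤ ((archAbsVal (K := K)).map fun v ↦ (κ * ⨆ j, v (c j)) ^ n).prod *
        (∏ᶠ v : nonarchAbsVal (K := K), ⨆ j, v.val (c j)) ^ n := mul_le_mul e1 e3 p2 p1
    _ = _ := by rw [e2, ← mul_pow, mul_assoc]

/-- The height of a point is at most the product of the heights of its pairs with one coordinate. -/
theorem ht_le_prod {n : ℕ} (y : Fin n → K) (i : Fin n) (hi : y i ≠ 0) :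
    mulHeight y ≤ ∏ l, mulHeight ![y i, y l] := by
  classical
  have h0 : ∀ l, (![y i, y l] : Fin 2 → K) ≠ 0 := fun l h => hi (by simpa using congrFun h 0)
  rw [← mulHeight_fun_prod_eq (x := fun l => (![y i, y l] : Fin 2 → K)) h0]
  let f : Fin n → (Fin n → Fin 2) := fun l => Function.update (fun _ => 0) l 1
  have h1 : (fun I : (a : Fin n) → Fin 2 ↦ ∏ a, (![y i, y a] : Fin 2 → K) (I a)) ∘ f =
      (y i ^ (n - 1)) • y := by
    funext l
    simp only [Function.comp, Pi.smul_apply, smul_eq_mul]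
    rw [Finset.prod_eq_mul_prod_sdiff_singleton_of_mem (Finset.mem_univ l)]
    rw [mul_comm]
    congr 1
    · rw [Finset.prod_congr rfl (g := fun _ => y i)]
      · rw [Finset.prod_const, Finset.card_sdiff_of_subset (by simp)]
        simp
      · intro a ha
        have hal : a ≠ l := by simpa using ha
        simp [f, Function.update_of_ne hal]
    · simp [f]
  have h2 := mulHeight_comp_le f (fun I : (a : Fin n) → Fin 2 ↦ ∏ a, (![y i, y a] : Fin 2 → K) (I a))
  rw [h1, mulHeight_smul_eq_mulHeight _ (pow_ne_zero _ hi)] at h2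
  exact h2

end Pool.Agent.K6.H53.GP
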