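import Mathlib

set_option autoImplicit false

/-!
# Local norms

A notion of bounds for the elements of an algebra over a field with an absolute value, and the bounds
for values of polynomials and for determinants.
-/

namespace Pool.Agent.K6.H53.GP

open MvPolynomial

/-- Bounds for the elements of a `K`-algebra; `e = 1` in the archimedean case and `e = 0` in the
nonarchimedean case. -/
structure Bds {K : Type} [Field K] (v : AbsoluteValue K ℝ) (e : ℕ) (R : Type) [CommRing R]
    [Algebra K R] where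
  /-- the element has the bound -/
  bd : R → ℝ → Prop
  nonneg : ∀ {x t}, bd x t → 0 ≤ t
  mono : ∀ {x t u}, bd x t → t ≤ u → bd x u
  smul : ∀ (a : K) {x t}, bd x t → bd (a • x) (v a * t)
  mul : ∀ {x y t u}, bd x t → bd y u → bd (x * y) (t * u)
  sum : ∀ {ι : Type} (s : Finset ι) (g : ι → R) (B : ℝ), 0 ≤ B → (∀ i ∈ s, bd (g i) B) →
    bd (∑ i ∈ s, g i) ((s.card : ℝ) ^ e * B)

namespace Bds

variable {K : Type} [Field K] {v : AbsoluteValue K ℝ} {e : ℕ} {R : Type} [CommRing R] [Algebra K R]
  (b : Bds v e R)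

lemma multiset_prod (Z : ℝ) (s : Multiset R) (hs : s ≠ 0) (h : ∀ x ∈ s, b.bd x Z) :
    b.bd s.prod (Z ^ s.card) := by
  induction s using Multiset.induction with
  | empty => exact absurd rfl hs
  | cons a t ih =>
    by_cases ht : t = 0
    · subst ht
      simpa using h a (by simp)
    · rw [Multiset.prod_cons, Multiset.card_cons, pow_succ']
      exact b.mul (h a (by simp)) (ih ht fun x hx => h x (Multiset.mem_cons_of_mem hx))

lemma finset_prod {ι : Type} (Z : ℝ) (s : Finset ι) (hs : s.Nonempty) (g : ι → R)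
    (h : ∀ i ∈ s, b.bd (g i) Z) : b.bd (∏ i ∈ s, g i) (Z ^ s.card) := by
  have h1 := b.multiset_prod Z (s.val.map g) (by
    intro h0
    have := congrArg Multiset.card h0
    rw [Multiset.card_map] at this
    exact hs.ne_empty (Finset.card_eq_zero.1 this)) (by
    intro x hx
    obtain ⟨i, hi, rfl⟩ := Multiset.mem_map.1 hx
    exact h i hi)
  rw [Multiset.card_map] at h1
  exact h1

lemma mono_prod {n : ℕ} (Z : ℝ) (z : Fin n → R) (h : ∀ i, b.bd (z i) Z) (m : Fin n →₀ ℕ)
    (hm : m ≠ 0) : b.bd (∏ i, z i ^ m i) (Z ^ m.degree) := by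
  classical
  have h1 := b.multiset_prod Z (m.toMultiset.map z) (by
    intro h0
    rw [Multiset.map_eq_zero] at h0
    apply hm
    have h3 := congrArg Multiset.toFinsupp h0
    rwa [Finsupp.toMultiset_toFinsupp, map_zero] at h3) (by
    intro x hx
    obtain ⟨i, hi, rfl⟩ := Multiset.mem_map.1 hx
    exact h i)
  have h2 : (m.toMultiset.map z).prod = ∏ i, z i ^ m i := by
    rw [Finsupp.toMultiset_map, Finsupp.prod_toMultiset, Finsupp.prod_mapDomain_index
      (fun _ => pow_zero _) (fun _ _ _ => pow_add _ _ _), Finsupp.prod_fintype]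
    intro i
    exact pow_zero _
  have h3 : (m.toMultiset.map z).card = m.degree := by
    rw [Multiset.card_map, Finsupp.card_toMultiset, Finsupp.degree_apply]
    rfl
  rw [h2, h3] at h1
  exact h1

/-- The bound of the value of a form. -/
lemma aeval_bd {n d : ℕ} (hd : d ≠ 0) (P : MvPolynomial (Fin n) K) (hP : P.IsHomogeneous d)
    (Bv : ℝ) (hB : 0 ≤ Bv) (hc : ∀ m, v (P.coeff m) ≤ Bv) (Z : ℝ) (hZ : 0 ≤ Z) (z : Fin n → R)
    (h : ∀ i, b.bd (z i) Z) : b.bd (aeval z P) ((P.support.card : ℝ) ^ e * (Bv * Z ^ d)) := by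
  classical
  rw [aeval_def, eval₂_eq']
  refine b.sum _ _ _ (by positivity) fun m hm => ?_
  have hdeg : m.degree = d := by
    by_contra hne
    exact (mem_support_iff.1 hm) (hP.coeff_eq_zero hne)
  have hm0 : m ≠ 0 := by
    rintro rfl
    rw [map_zero] at hdeg
    exact hd hdeg.symm
  have h1 := b.smul (P.coeff m) (b.mono_prod Z z h m hm0)
  rw [Algebra.smul_def] at h1
  refine b.mono h1 ?_
  rw [hdeg]
  exact mul_le_mul_of_nonneg_right (hc m) (by positivity)

/-- The bound of a determinant. -/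
lemma det_bd {D : ℕ} (hD : D ≠ 0) (M : Matrix (Fin D) (Fin D) R) (Z : ℝ) (hZ : 0 ≤ Z)
    (h : ∀ i j, b.bd (M i j) Z) : b.bd M.det ((D.factorial : ℝ) ^ e * Z ^ D) := by
  rw [Matrix.det_apply]
  have h1 : (Finset.univ : Finset (Equiv.Perm (Fin D))).card = D.factorial := by
    rw [Finset.card_univ, Fintype.card_perm, Fintype.card_fin]
  rw [← h1]
  refine b.sum _ _ _ (by positivity) fun σ _ => ?_
  have h2 : b.bd (∏ i, M (σ i) i) (Z ^ D) := by
    have : Nonempty (Fin D) := ⟨⟨0, Nat.pos_of_ne_zero hD⟩⟩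
    have := b.finset_prod Z Finset.univ Finset.univ_nonempty (fun i => M (σ i) i)
      fun i _ => h _ _
    rwa [Finset.card_univ, Fintype.card_fin] at this
  rcases Int.units_eq_one_or (Equiv.Perm.sign σ) with hs | hs
  · rw [hs, one_smul]
    exact h2
  · rw [hs]
    have h3 := b.smul (-1) h2
    have h4 : v (-1) = 1 := by rw [map_neg_eq_map, map_one]
    rw [h4, one_mul, neg_one_smul] at h3
    convert h3 using 1
    rw [Units.neg_smul, one_smul]

end Bds

end Pool.Agent.K6.H53.GP
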