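import Mathlib
import Pool.Agent.K6.H53.GP.Nm
import Pool.Agent.K6.H53.GP.Gl

set_option autoImplicit false

/-!
# Local norms of binary polynomials, and the heights of their zeros
-/

namespace Pool.Agent.K6.H53.GP

open MvPolynomial Height Height.AdmissibleAbsValues

variable {K : Type} [Field K]

/-- Bounds for binary polynomials. -/
structure PBds (v : AbsoluteValue K ℝ) (e : ℕ) extends Bds v e (MvPolynomial (Fin 2) K) where
  mono_one : ∀ m, bd (monomial m 1) 1
  lin : ∀ {P t}, bd P t → ∀ (s : Finset (Fin 2 →₀ ℕ)) (w : (Fin 2 →₀ ℕ) → K) (W : ℝ), 0 ≤ W →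
    (∀ m ∈ s, v (w m) ≤ W) → v (∑ m ∈ s, coeff m P * w m) ≤ t * W

section arch

variable (v : AbsoluteValue K ℝ)

/-- The sum of the absolute values of the coefficients. -/
noncomputable def n1 (P : MvPolynomial (Fin 2) K) : ℝ := ∑ m ∈ P.support, v (coeff m P)

lemma n1_nonneg (P : MvPolynomial (Fin 2) K) : 0 ≤ n1 v P :=
  Finset.sum_nonneg fun _ _ => v.nonneg _

lemma n1_eq (P : MvPolynomial (Fin 2) K) (s : Finset (Fin 2 →₀ ℕ)) (hs : P.support ⊆ s) :
    n1 v P = ∑ m ∈ s, v (coeff m P) := by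
  refine Finset.sum_subset hs fun m _ hm => ?_
  rw [notMem_support_iff.1 hm, map_zero]

lemma n1_le (P : MvPolynomial (Fin 2) K) (s : Finset (Fin 2 →₀ ℕ)) :
    ∑ m ∈ s, v (coeff m P) ≤ n1 v P := by
  classical
  rw [n1_eq v P (P.support ∪ s) Finset.subset_union_left]
  exact Finset.sum_le_sum_of_subset_of_nonneg Finset.subset_union_right fun _ _ _ => v.nonneg _

lemma n1_add (P Q : MvPolynomial (Fin 2) K) : n1 v (P + Q) ≤ n1 v P + n1 v Q := by
  classical
  have h : n1 v (P + Q) ≤ ∑ m ∈ (P + Q).support, (v (coeff m P) + v (coeff m Q)) :=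
    Finset.sum_le_sum fun m _ => by
      rw [coeff_add]
      exact v.add_le _ _
  rw [Finset.sum_add_distrib] at h
  linarith [n1_le v P (P + Q).support, n1_le v Q (P + Q).support]

lemma n1_zero : n1 v 0 = 0 := by simp [n1]

lemma n1_sum {ι : Type} (s : Finset ι) (g : ι → MvPolynomial (Fin 2) K) :
    n1 v (∑ i ∈ s, g i) ≤ ∑ i ∈ s, n1 v (g i) := by
  classical
  induction s using Finset.induction with
  | empty => simp [n1_zero]
  | insert a s ha ih =>
    rw [Finset.sum_insert ha, Finset.sum_insert ha]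
    linarith [n1_add v (g a) (∑ i ∈ s, g i)]

lemma n1_monomial (m : Fin 2 →₀ ℕ) (c : K) : n1 v (monomial m c) = v c := by
  classical
  rw [n1_eq v _ {m} support_monomial_subset, Finset.sum_singleton, coeff_monomial, if_pos rfl]

lemma n1_mul (P Q : MvPolynomial (Fin 2) K) : n1 v (P * Q) ≤ n1 v P * n1 v Q := by
  have h : P * Q = ∑ a ∈ P.support, ∑ b ∈ Q.support, monomial (a + b) (coeff a P * coeff b Q) := by
    conv_lhs => rw [P.as_sum, Q.as_sum]
    rw [Finset.sum_mul_sum]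
    simp only [monomial_mul]
  rw [h]
  refine (n1_sum v _ _).trans ?_
  rw [n1, n1, Finset.sum_mul_sum]
  refine Finset.sum_le_sum fun a _ => (n1_sum v _ _).trans (Finset.sum_le_sum fun b _ => ?_)
  rw [n1_monomial, map_mul]

lemma n1_smul (a : K) (P : MvPolynomial (Fin 2) K) : n1 v (a • P) ≤ v a * n1 v P := by
  rw [n1, Finset.sum_congr rfl fun m _ => by rw [coeff_smul, smul_eq_mul, map_mul],
    ← Finset.mul_sum]
  exact mul_le_mul_of_nonneg_left (n1_le v P _) (v.nonneg a)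

/-- The archimedean case. -/
noncomputable def archBds : PBds v 1 where
  bd P t := n1 v P ≤ t
  nonneg {P t} h := (n1_nonneg v P).trans h
  mono h h' := h.trans h'
  smul a P t h := (n1_smul v a P).trans (mul_le_mul_of_nonneg_left h (v.nonneg a))
  mul {P Q t u} h h' := (n1_mul v P Q).trans
    (mul_le_mul h h' (n1_nonneg v Q) ((n1_nonneg v P).trans h))
  sum s g B hB h := by
    rw [pow_one, ← nsmul_eq_mul]
    exact (n1_sum v s g).trans (Finset.sum_le_card_nsmul _ _ _ h)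
  mono_one m := by rw [n1_monomial, map_one]
  lin {P t} h s w W hW hw := by
    calc v (∑ m ∈ s, coeff m P * w m) ≤ ∑ m ∈ s, v (coeff m P * w m) := v.sum_le _ _
      _ ≤ ∑ m ∈ s, v (coeff m P) * W := Finset.sum_le_sum fun m hm => by
        rw [map_mul]
        exact mul_le_mul_of_nonneg_left (hw m hm) (v.nonneg _)
      _ = (∑ m ∈ s, v (coeff m P)) * W := by rw [Finset.sum_mul]
      _ ≤ t * W := mul_le_mul_of_nonneg_right ((n1_le v P s).trans h) hW

end arch

section nonarch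

variable (v : AbsoluteValue K ℝ) (hv : IsNonarchimedean v)
include hv

lemma na_sum {ι : Type} (s : Finset ι) (g : ι → K) (B : ℝ) (hB : 0 ≤ B)
    (h : ∀ i ∈ s, v (g i) ≤ B) : v (∑ i ∈ s, g i) ≤ B := by
  classical
  induction s using Finset.induction with
  | empty => simpa using hB
  | insert a s ha ih =>
    rw [Finset.sum_insert ha]
    exact (hv _ _).trans (max_le (h a (by simp)) (ih fun i hi => h i (Finset.mem_insert_of_mem hi)))

/-- The nonarchimedean case. -/
noncomputable def nonarchBds : PBds v 0 where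
  bd P t := 0 ≤ t ∧ ∀ m, v (coeff m P) ≤ t
  nonneg h := h.1
  mono h h' := ⟨h.1.trans h', fun m => (h.2 m).trans h'⟩
  smul a P t h := ⟨mul_nonneg (v.nonneg a) h.1, fun m => by
    rw [coeff_smul, smul_eq_mul, map_mul]
    exact mul_le_mul_of_nonneg_left (h.2 m) (v.nonneg a)⟩
  mul {P Q t u} h h' := ⟨mul_nonneg h.1 h'.1, fun m => by
    classical
    rw [coeff_mul]
    refine na_sum v hv _ _ _ (mul_nonneg h.1 h'.1) fun x _ => ?_
    rw [map_mul]
    exact mul_le_mul (h.2 _) (h'.2 _) (v.nonneg _) h.1⟩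
  sum s g B hB h := by
    rw [pow_zero, one_mul]
    refine ⟨hB, fun m => ?_⟩
    rw [coeff_sum]
    exact na_sum v hv _ _ _ hB fun i hi => (h i hi).2 m
  mono_one m := ⟨zero_le_one, fun m' => by
    classical
    rw [coeff_monomial]
    split_ifs
    · rw [map_one]
    · rw [map_zero]
      exact zero_le_one⟩
  lin {P t} h s w W hW hw := by
    refine na_sum v hv _ _ _ (mul_nonneg h.1 hW) fun m hm => ?_
    rw [map_mul]
    exact mul_le_mul (h.2 m) (hw m hm) (v.nonneg _) h.1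

end nonarch

/-- The bound given by the coefficients. -/
lemma PBds.poly {v : AbsoluteValue K ℝ} {e : ℕ} (b : PBds v e) (P : MvPolynomial (Fin 2) K)
    (B : ℝ) (hB : 0 ≤ B) (h : ∀ m, v (coeff m P) ≤ B) : b.bd P ((P.support.card : ℝ) ^ e * B) := by
  have h1 := b.sum P.support (fun m => monomial m (coeff m P)) B hB fun m _ => by
    have h2 := b.smul (coeff m P) (b.mono_one m)
    rw [smul_monomial, smul_eq_mul, mul_one, mul_one] at h2
    exact b.mono h2 (h m)
  rwa [← P.as_sum] at h1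

/-- A zero of all homogeneous components of a binary polynomial. -/
theorem root_bound (P : MvPolynomial (Fin 2) K) (hP : P ≠ 0) (y : Fin 2 → K) (hy : y 0 ≠ 0)
    (hvan : ∀ n, eval y (homogeneousComponent n P) = 0) :
    ∃ r : K, r ≠ 0 ∧ ∀ (v : AbsoluteValue K ℝ) (e : ℕ) (b : PBds v e) (t : ℝ), b.bd P t →
      v r ≤ t ∧ v r * v (y 1) ≤ t * v (y 0) := by
  classical
  obtain ⟨m0, hm0⟩ := Finset.nonempty_iff_ne_empty.2 (fun h => hP (support_eq_empty.1 h))
  set n := m0.degree with hn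
  set T := P.support.filter (fun m => m.degree = n) with hT
  have hTne : T.Nonempty := ⟨m0, by rw [hT, Finset.mem_filter]; exact ⟨hm0, rfl⟩⟩
  obtain ⟨μ, hμ, hmin⟩ := Finset.exists_min_image T (fun m => m 0) hTne
  have hdeg : ∀ m : Fin 2 →₀ ℕ, m.degree = m 0 + m 1 := fun m => by
    rw [Finsupp.degree_eq_sum, Fin.sum_univ_two]
  have hTdeg : ∀ m ∈ T, m 0 + m 1 = n := fun m hm => by
    rw [← hdeg]
    exact (Finset.mem_filter.1 hm).2
  have hlt : ∀ m ∈ T.erase μ, μ 0 < m 0 := by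
    intro m hm
    have hm' := Finset.mem_of_mem_erase hm
    refine lt_of_le_of_ne (hmin m hm') fun heq => Finset.ne_of_mem_erase hm ?_
    have h1 := hTdeg m hm'
    have h2 := hTdeg μ hμ
    ext i
    fin_cases i
    · exact heq.symm
    · change m 1 = μ 1
      omega
  have hμc : coeff μ P ≠ 0 := mem_support_iff.1 (Finset.mem_filter.1 hμ).1
  refine ⟨coeff μ P, hμc, fun v e b t hb => ?_⟩
  have hc : v (coeff μ P) ≤ t := by
    have := b.lin hb {μ} (fun _ => 1) 1 zero_le_one fun _ _ => by rw [map_one]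
    simpa using this
  refine ⟨hc, ?_⟩
  have hvr : 0 < v (coeff μ P) := (AbsoluteValue.pos_iff v).2 hμc
  rcases le_or_gt (v (y 1)) (v (y 0)) with hle | hgt
  · exact mul_le_mul hc hle (v.nonneg _) (b.nonneg hb)
  have hy1 : 0 < v (y 1) := lt_of_le_of_lt (v.nonneg _) hgt
  have hy0 : 0 < v (y 0) := (AbsoluteValue.pos_iff v).2 hy
  -- the equation
  have heq : ∑ m ∈ T, coeff m P * (y 0 ^ m 0 * y 1 ^ m 1) = 0 := by
    have h1 := hvan n
    rw [homogeneousComponent_apply, map_sum] at h1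
    rw [← h1]
    refine Finset.sum_congr ?_ fun m _ => ?_
    · ext m
      simp [hT]
    · rw [eval_monomial, Finsupp.prod_fintype _ _ (fun _ => pow_zero _), Fin.prod_univ_two]
  have heq2 : ∑ m ∈ T, coeff m P * (y 0 ^ (m 0 - μ 0) * y 1 ^ m 1) = 0 := by
    have h1 : y 0 ^ μ 0 * ∑ m ∈ T, coeff m P * (y 0 ^ (m 0 - μ 0) * y 1 ^ m 1) = 0 := by
      rw [Finset.mul_sum, ← heq]
      refine Finset.sum_congr rfl fun m hm => ?_
      have : m 0 = μ 0 + (m 0 - μ 0) := by have := hmin m hm; omega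
      conv_rhs => rw [this, pow_add]
      ring
    exact (mul_eq_zero.1 h1).resolve_left (pow_ne_zero _ hy)
  rw [← Finset.add_sum_erase T _ hμ, Nat.sub_self, pow_zero, one_mul] at heq2
  have heq3 : coeff μ P * y 1 ^ μ 1 = -∑ m ∈ T.erase μ, coeff m P * (y 0 ^ (m 0 - μ 0) * y 1 ^ m 1) :=
    eq_neg_of_add_eq_zero_left heq2
  have hpos : 1 ≤ μ 1 := by
    by_contra h0
    have h0' : μ 1 = 0 := by omega
    have hemp : T.erase μ = ∅ := by
      rw [Finset.eq_empty_iff_forall_notMem]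
      intro m hm
      have h1 := hlt m hm
      have h2 := hTdeg m (Finset.mem_of_mem_erase hm)
      have h3 := hTdeg μ hμ
      omega
    rw [hemp, Finset.sum_empty, neg_zero, h0', pow_zero, mul_one] at heq3
    exact hμc heq3
  have hb1 : v (coeff μ P * y 1 ^ μ 1) ≤ t * (v (y 0) * v (y 1) ^ (μ 1 - 1)) := by
    rw [heq3, map_neg_eq_map]
    refine b.lin hb _ _ _ (by positivity) fun m hm => ?_
    have h1 := hlt m hm
    have h2 := hTdeg m (Finset.mem_of_mem_erase hm)
    have h3 := hTdeg μ hμ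
    rw [map_mul, map_pow, map_pow]
    have e1 : m 0 - μ 0 = (m 0 - μ 0 - 1) + 1 := by omega
    have e2 : μ 1 - 1 = (m 0 - μ 0 - 1) + m 1 := by omega
    rw [e1, pow_succ, e2, pow_add]
    have h4 : v (y 0) ^ (m 0 - μ 0 - 1) ≤ v (y 1) ^ (m 0 - μ 0 - 1) :=
      pow_le_pow_left₀ (v.nonneg _) hgt.le _
    calc v (y 0) ^ (m 0 - μ 0 - 1) * v (y 0) * v (y 1) ^ m 1
        ≤ v (y 1) ^ (m 0 - μ 0 - 1) * v (y 0) * v (y 1) ^ m 1 := by gcongr
      _ = _ := by ring
  rw [map_mul, map_pow] at hb1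
  have e3 : v (y 1) ^ μ 1 = v (y 1) ^ (μ 1 - 1) * v (y 1) := by
    rw [← pow_succ, Nat.sub_add_cancel hpos]
  rw [e3] at hb1
  have hp : 0 < v (y 1) ^ (μ 1 - 1) := pow_pos hy1 _
  have h5 : (v (coeff μ P) * v (y 1)) * v (y 1) ^ (μ 1 - 1) ≤
      (t * v (y 0)) * v (y 1) ^ (μ 1 - 1) := by linarith
  exact le_of_mul_le_mul_right h5 hp

/-- The height of a zero of all homogeneous components of a binary polynomial. -/
theorem pair_height [AdmissibleAbsValues K] (P : MvPolynomial (Fin 2) K) (hP : P ≠ 0)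
    (y : Fin 2 → K) (hvan : ∀ n, eval y (homogeneousComponent n P) = 0)
    {ι' : Type} [Finite ι'] {c : ι' → K} (hc : c ≠ 0) (κ : ℝ) (n : ℕ) (hκ : 0 ≤ κ)
    (hκ1 : 1 ≤ κ)
    (h1 : ∀ v ∈ archAbsVal (K := K), ∃ b : PBds v 1, b.bd P ((κ * ⨆ j, v (c j)) ^ n))
    (h2 : ∀ v ∈ nonarchAbsVal (K := K), ∃ b : PBds v 0, b.bd P ((⨆ j, v (c j)) ^ n)) :
    mulHeight y ≤ (κ ^ totalWeight K * mulHeight c) ^ n := by
  have hge : 1 ≤ (κ ^ totalWeight K * mulHeight c) ^ n :=
    one_le_pow₀ (one_le_mul_of_one_le_of_one_le (one_le_pow₀ hκ1) (one_le_mulHeight c))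
  by_cases hy : y 0 = 0
  · refine le_trans ?_ hge
    have : y = ![0, y 1] := by
      funext i
      fin_cases i
      · exact hy
      · rfl
    rw [this, mulHeight_cons_zero, mulHeight_eq_one_of_subsingleton]
  obtain ⟨r, hr, hb⟩ := root_bound P hP y hy hvan
  have hx : (r / y 0) • y ≠ 0 := by
    intro h
    have := congrFun h 0
    simp only [Pi.smul_apply, smul_eq_mul, Pi.zero_apply] at this
    rw [div_mul_cancel₀ _ hy] at this
    exact hr this
  rw [← mulHeight_smul_eq_mulHeight y (div_ne_zero hr hy)]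
  have key : ∀ (v : AbsoluteValue K ℝ) (e : ℕ) (b : PBds v e) (t : ℝ), b.bd P t →
      ⨆ i, v (((r / y 0) • y) i) ≤ t := by
    intro v e b t hbt
    obtain ⟨h3, h4⟩ := hb v e b t hbt
    have hy0 : 0 < v (y 0) := (AbsoluteValue.pos_iff v).2 hy
    refine ciSup_le fun i => ?_
    rw [Pi.smul_apply, smul_eq_mul, map_mul, map_div₀]
    fin_cases i
    · change v r / v (y 0) * v (y 0) ≤ t
      rw [div_mul_cancel₀ _ hy0.ne']
      exact h3
    · change v r / v (y 0) * v (y 1) ≤ t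
      rw [div_mul_eq_mul_div, div_le_iff₀ hy0]
      exact h4
  refine glob hx hc κ n hκ (fun v hv => ?_) fun v hv => ?_
  · obtain ⟨b, hb1⟩ := h1 v hv
    exact key v 1 b _ hb1
  · obtain ⟨b, hb1⟩ := h2 v hv
    exact key v 0 b _ hb1

end Pool.Agent.K6.H53.GP
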