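import Mathlib
import Pool.Agent.K6.H53.GP.Pn
import Pool.Agent.K6.H53.GP.Alg

set_option autoImplicit false

/-!
# The height of the points of a curve which are mapped into a hypersurface by an iterate
-/

namespace Pool.Agent.K6.H53.GP

open MvPolynomial Height Height.AdmissibleAbsValues

variable {K : Type} [Field K]

/-- The iterates of a system of polynomials, applied to elements of an algebra. -/
noncomputable def itv {R : Type} [CommRing R] [Algebra K R] {n : ℕ}
    (F : Fin n → MvPolynomial (Fin n) K) (u : Fin n → R) : ℕ → Fin n → R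
  | 0 => u
  | k + 1 => fun i => aeval (itv F u k) (F i)

lemma map_itv {R R' : Type} [CommRing R] [Algebra K R] [CommRing R'] [Algebra K R'] {n : ℕ}
    (ψ : R →ₐ[K] R') (F : Fin n → MvPolynomial (Fin n) K) (u : Fin n → R) (k : ℕ) :
    (fun i => ψ (itv F u k i)) = itv F (fun i => ψ (u i)) k := by
  induction k with
  | zero => rfl
  | succ k ih =>
    funext i
    simp only [itv]
    rw [← ih, ← AlgHom.comp_apply, comp_aeval]

lemma aeval_scale {R : Type} [CommRing R] [Algebra K R] {n d : ℕ} (P : MvPolynomial (Fin n) K)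
    (hP : P.IsHomogeneous d) (c : R) (w : Fin n → R) :
    aeval (fun i => c * w i) P = c ^ d * aeval w P := by
  classical
  rw [aeval_def, aeval_def, eval₂_eq', eval₂_eq', Finset.mul_sum]
  refine Finset.sum_congr rfl fun m hm => ?_
  have hdeg : m.degree = d := by
    by_contra hne
    exact (mem_support_iff.1 hm) (hP.coeff_eq_zero hne)
  simp only [mul_pow]
  rw [Finset.prod_mul_distrib, Finset.prod_pow_eq_pow_sum, ← Finsupp.degree_eq_sum, hdeg]
  ring

lemma itv_scale {R : Type} [CommRing R] [Algebra K R] {n d : ℕ}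
    (F : Fin n → MvPolynomial (Fin n) K) (hF : ∀ i, (F i).IsHomogeneous d) (c : R)
    (w : Fin n → R) (k : ℕ) : itv F (fun i => c * w i) k = fun i => c ^ d ^ k * itv F w k i := by
  induction k with
  | zero => simp [itv]
  | succ k ih =>
    funext i
    simp only [itv]
    rw [ih, aeval_scale _ (hF i), ← pow_mul, ← pow_succ]

/-- If a polynomial vanishes on a line through the origin, so do its homogeneous components. -/
lemma comp_vanish [Infinite K] {n : ℕ} (P : MvPolynomial (Fin n) K) (y : Fin n → K)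
    (h : ∀ c : K, eval (fun i => c * y i) P = 0) (m : ℕ) : eval y (homogeneousComponent m P) = 0 := by
  classical
  set q : Polynomial K := ∑ r ∈ Finset.range (P.totalDegree + 1),
    Polynomial.monomial r (eval y (homogeneousComponent r P)) with hq
  have h1 : ∀ c : K, q.eval c = 0 := by
    intro c
    rw [hq, Polynomial.eval_finsetSum, ← h c]
    conv_rhs => rw [← sum_homogeneousComponent P]
    rw [map_sum]
    refine Finset.sum_congr rfl fun r _ => ?_
    have h2 := aeval_scale (homogeneousComponent r P) (homogeneousComponent_isHomogeneous r P) c y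
    rw [Polynomial.eval_monomial, mul_comm]
    exact h2.symm
  have h2 : q = 0 := Polynomial.funext fun c => by rw [h1, Polynomial.eval_zero]
  by_cases hm : m ∈ Finset.range (P.totalDegree + 1)
  · have h3 : q.coeff m = eval y (homogeneousComponent m P) := by
      rw [hq, Polynomial.finsetSum_coeff]
      simp only [Polynomial.coeff_monomial]
      rw [Finset.sum_ite_eq' _ m, if_pos hm]
    rw [← h3, h2, Polynomial.coeff_zero]
  · rw [homogeneousComponent_eq_zero m P (by
      rw [Finset.mem_range] at hm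
      omega), map_zero]

section rep

variable {R : Type} [CommRing R] [Algebra K R] (φ : MvPolynomial (Fin 2) K →ₐ[K] R) {D : ℕ}
  (b : Fin D → R)

/-- Multiplication by the element is given by the matrix. -/
def Rep (x : R) (M : Matrix (Fin D) (Fin D) (MvPolynomial (Fin 2) K)) : Prop :=
  ∀ r, x * b r = ∑ s, φ (M r s) * b s

variable {φ b}

lemma Rep.smul {x : R} {M : Matrix (Fin D) (Fin D) (MvPolynomial (Fin 2) K)} (h : Rep φ b x M)
    (a : K) : Rep φ b (a • x) (a • M) := fun r => by
  rw [Algebra.smul_mul_assoc, h r, Finset.smul_sum]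
  refine Finset.sum_congr rfl fun s _ => ?_
  rw [Matrix.smul_apply, map_smul, Algebra.smul_mul_assoc]

lemma Rep.mul {x y : R} {M M' : Matrix (Fin D) (Fin D) (MvPolynomial (Fin 2) K)}
    (h : Rep φ b x M) (h' : Rep φ b y M') : Rep φ b (x * y) (M' * M) := fun r => by
  rw [mul_assoc, h' r, Finset.mul_sum]
  calc ∑ s, x * (φ (M' r s) * b s) = ∑ s, ∑ t, φ (M' r s) * φ (M s t) * b t := by
        refine Finset.sum_congr rfl fun s _ => ?_
        rw [mul_left_comm, h s, Finset.mul_sum]
        exact Finset.sum_congr rfl fun t _ => (mul_assoc _ _ _).symm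
    _ = ∑ t, φ ((M' * M) r t) * b t := by
        rw [Finset.sum_comm]
        refine Finset.sum_congr rfl fun t _ => ?_
        rw [Matrix.mul_apply, map_sum, Finset.sum_mul]
        refine Finset.sum_congr rfl fun s _ => ?_
        rw [map_mul]

lemma Rep.sum {ι : Type} (s : Finset ι) {g : ι → R}
    {M : ι → Matrix (Fin D) (Fin D) (MvPolynomial (Fin 2) K)} (h : ∀ i ∈ s, Rep φ b (g i) (M i)) :
    Rep φ b (∑ i ∈ s, g i) (∑ i ∈ s, M i) := fun r => by
  rw [Finset.sum_mul, Finset.sum_congr rfl fun i hi => h i hi r, Finset.sum_comm]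
  refine Finset.sum_congr rfl fun t _ => ?_
  rw [Matrix.sum_apply, map_sum, Finset.sum_mul]

lemma Rep.unique (hind : ∀ c : Fin D → MvPolynomial (Fin 2) K, ∑ s, φ (c s) * b s = 0 → c = 0)
    {x : R} {M M' : Matrix (Fin D) (Fin D) (MvPolynomial (Fin 2) K)} (h : Rep φ b x M)
    (h' : Rep φ b x M') : M = M' := by
  ext1 r s
  have h1 := hind (fun s => M r s - M' r s) (by
    simp only [map_sub, sub_mul]
    rw [Finset.sum_sub_distrib, ← h r, ← h' r, sub_self])
  exact sub_eq_zero.1 (congrFun h1 s)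

lemma Rep.det_ne [IsDomain R]
    (hind : ∀ c : Fin D → MvPolynomial (Fin 2) K, ∑ s, φ (c s) * b s = 0 → c = 0)
    {x : R} (hx : x ≠ 0) {M : Matrix (Fin D) (Fin D) (MvPolynomial (Fin 2) K)} (h : Rep φ b x M) :
    M.det ≠ 0 := by
  intro h0
  obtain ⟨c, hc, hc0⟩ := Matrix.exists_vecMul_eq_zero_iff.2 h0
  apply hc
  apply hind
  have h1 : x * ∑ r, φ (c r) * b r = 0 := by
    rw [Finset.mul_sum]
    calc ∑ r, x * (φ (c r) * b r) = ∑ r, ∑ s, φ (c r) * φ (M r s) * b s := by
          refine Finset.sum_congr rfl fun r _ => ?_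
          rw [mul_left_comm, h r, Finset.mul_sum]
          exact Finset.sum_congr rfl fun t _ => (mul_assoc _ _ _).symm
      _ = ∑ s, φ (Matrix.vecMul c M s) * b s := by
          rw [Finset.sum_comm]
          refine Finset.sum_congr rfl fun s _ => ?_
          rw [Matrix.vecMul, dotProduct, map_sum, Finset.sum_mul]
          refine Finset.sum_congr rfl fun r _ => ?_
          rw [map_mul]
      _ = 0 := by
          rw [hc0]
          simp
  exact (mul_eq_zero.1 h1).resolve_left hx

lemma Rep.det_zero {s0 : Fin D} (hb : b s0 = 1) {x : R}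
    {M : Matrix (Fin D) (Fin D) (MvPolynomial (Fin 2) K)} (h : Rep φ b x M)
    (ψ : R →ₐ[K] K) (hx : ψ x = 0) : ψ (φ M.det) = 0 := by
  have h1 : ψ (φ M.det) = (M.map (ψ.comp φ)).det := by
    have := AlgHom.map_det (ψ.comp φ) M
    exact this
  rw [h1]
  apply Matrix.exists_mulVec_eq_zero_iff.1
  refine ⟨fun s => ψ (b s), fun h0 => ?_, ?_⟩
  · have := congrFun h0 s0
    simp only [hb, map_one, Pi.zero_apply] at this
    exact one_ne_zero this
  · funext r
    have h2 := congrArg ψ (h r)
    rw [map_mul, hx, zero_mul, map_sum] at h2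
    rw [Matrix.mulVec, dotProduct, Pi.zero_apply, h2]
    refine Finset.sum_congr rfl fun s _ => ?_
    rw [map_mul]
    rfl

variable (φ b)

/-- The bounds for the matrices of the elements. -/
noncomputable def repBds (hD : D ≠ 0) {v : AbsoluteValue K ℝ} {e : ℕ} (B : PBds v e) :
    Bds v e R where
  bd x t := ∃ M, Rep φ b x M ∧ ∀ r s, B.bd (M r s) (t / (D : ℝ) ^ e)
  nonneg {x t} h := by
    obtain ⟨M, -, h2⟩ := h
    have h3 := B.nonneg (h2 ⟨0, Nat.pos_of_ne_zero hD⟩ ⟨0, Nat.pos_of_ne_zero hD⟩)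
    have h4 : (0 : ℝ) < (D : ℝ) ^ e := by positivity
    rw [le_div_iff₀ h4, zero_mul] at h3
    exact h3
  mono {x t u} h h' := by
    obtain ⟨M, h1, h2⟩ := h
    exact ⟨M, h1, fun r s => B.mono (h2 r s) (by gcongr)⟩
  smul a x t h := by
    obtain ⟨M, h1, h2⟩ := h
    refine ⟨a • M, h1.smul a, fun r s => ?_⟩
    rw [Matrix.smul_apply, mul_div_assoc]
    exact B.smul a (h2 r s)
  mul {x y t u} h h' := by
    obtain ⟨M, h1, h2⟩ := h
    obtain ⟨M', h1', h2'⟩ := h'
    have ht : 0 ≤ t / (D : ℝ) ^ e := B.nonneg (h2 ⟨0, Nat.pos_of_ne_zero hD⟩ ⟨0, Nat.pos_of_ne_zero hD⟩)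
    have hu : 0 ≤ u / (D : ℝ) ^ e :=
      B.nonneg (h2' ⟨0, Nat.pos_of_ne_zero hD⟩ ⟨0, Nat.pos_of_ne_zero hD⟩)
    refine ⟨M' * M, h1.mul h1', fun r s => ?_⟩
    rw [Matrix.mul_apply]
    have h3 := B.sum Finset.univ (fun j => M' r j * M j s) (u / (D : ℝ) ^ e * (t / (D : ℝ) ^ e))
      (mul_nonneg hu ht) fun j _ => B.mul (h2' r j) (h2 j s)
    rw [Finset.card_univ, Fintype.card_fin] at h3
    refine B.mono h3 (le_of_eq ?_)
    have h4 : (D : ℝ) ^ e ≠ 0 := by positivity
    field_simp
  sum s g C hC h := by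
    classical
    choose! M hM1 hM2 using h
    refine ⟨∑ i ∈ s, M i, Rep.sum s hM1, fun r t => ?_⟩
    rw [Matrix.sum_apply, mul_div_assoc]
    exact B.sum s _ _ (by positivity) fun i hi => hM2 i hi r t

end rep

end Pool.Agent.K6.H53.GP
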