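import Mathlib
import Pool.Agent.K6.H53.GP.Mb

set_option autoImplicit false

/-!
# The main height bound
-/

namespace Pool.Agent.K6.H53.GP

open MvPolynomial Height Height.AdmissibleAbsValues

variable {K : Type} [Field K]

lemma local_bd {R : Type} [CommRing R] [Algebra K R] (φ : MvPolynomial (Fin 2) K →ₐ[K] R) {D : ℕ}
    (hD : D ≠ 0) (b : Fin D → R) {n d g : ℕ} (hd : 2 ≤ d) (hg : g ≠ 0)
    (F : Fin n → MvPolynomial (Fin n) K) (hF : ∀ i, (F i).IsHomogeneous d)
    (G : MvPolynomial (Fin n) K) (hG : G.IsHomogeneous g) (u : Fin n → R)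
    (U : Fin n → Matrix (Fin D) (Fin D) (MvPolynomial (Fin 2) K)) (hU : ∀ l, Rep φ b (u l) (U l))
    (κ : ℕ) (hκ1 : ∀ l r s, D * (U l r s).support.card ≤ κ) (hκ2 : ∀ i, (F i).support.card ≤ κ)
    (hκ3 : G.support.card ≤ κ) (hκ4 : D.factorial ≤ κ) {v : AbsoluteValue K ℝ} {e : ℕ}
    (B : PBds v e) (Bv : ℝ) (hB : 1 ≤ Bv) (hc1 : ∀ l r s m, v (coeff m (U l r s)) ≤ Bv)
    (hc2 : ∀ i m, v (coeff m (F i)) ≤ Bv) (hc3 : ∀ m, v (coeff m G) ≤ Bv) (k : ℕ) :
    ∃ M, Rep φ b (aeval (itv F u k) G) M ∧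
      B.bd M.det (((κ : ℝ) ^ e * Bv) ^ ((1 + D * (1 + 2 * g)) * d ^ k)) := by
  set W : ℝ := (κ : ℝ) ^ e * Bv with hW
  have hκ : 1 ≤ κ := le_trans (Nat.factorial_pos D) hκ4
  have hκe : (1 : ℝ) ≤ (κ : ℝ) ^ e := one_le_pow₀ (by exact_mod_cast hκ)
  have hW1 : 1 ≤ W := one_le_mul_of_one_le_of_one_le hκe hB
  have hW0 : 0 ≤ W := by linarith
  have hBv0 : 0 ≤ Bv := by linarith
  have hDe : (1 : ℝ) ≤ (D : ℝ) ^ e :=
    one_le_pow₀ (by exact_mod_cast Nat.one_le_iff_ne_zero.2 hD)
  have hle : ∀ c : ℕ, c ≤ κ → (c : ℝ) ^ e ≤ (κ : ℝ) ^ e := fun c hc =>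
    pow_le_pow_left₀ (Nat.cast_nonneg _) (by exact_mod_cast hc) e
  set RB := repBds φ b hD B with hRB
  have hu : ∀ l, RB.bd (u l) W := by
    intro l
    refine ⟨U l, hU l, fun r s => ?_⟩
    refine B.mono (B.poly _ Bv hBv0 (hc1 l r s)) ?_
    rw [le_div_iff₀ (by linarith), hW]
    have h1 := hle _ (hκ1 l r s)
    rw [Nat.cast_mul, mul_pow] at h1
    calc ((U l r s).support.card : ℝ) ^ e * Bv * (D : ℝ) ^ e =
        ((D : ℝ) ^ e * ((U l r s).support.card : ℝ) ^ e) * Bv := by ring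
      _ ≤ _ := mul_le_mul_of_nonneg_right h1 hBv0
  have hz : ∀ k, ∃ w : ℕ, w + 1 ≤ 2 * d ^ k ∧ ∀ i, RB.bd (itv F u k i) (W ^ w) := by
    intro k
    induction k with
    | zero => exact ⟨1, by simp, fun i => by simpa [itv] using hu i⟩
    | succ k ih =>
      obtain ⟨w, hw, hb⟩ := ih
      refine ⟨1 + w * d, ?_, fun i => ?_⟩
      · have h1 : (w + 1) * d ≤ 2 * d ^ k * d := Nat.mul_le_mul_right d hw
        have h2 : 2 * d ^ k * d = 2 * d ^ (k + 1) := by ring
        rw [h2] at h1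
        have h3 : (w + 1) * d = w * d + d := by ring
        omega
      · have h1 := RB.aeval_bd (by omega : d ≠ 0) (F i) (hF i) Bv hBv0 (hc2 i) (W ^ w)
          (by positivity) (itv F u k) hb
        refine RB.mono h1 ?_
        rw [← pow_mul, ← mul_assoc, pow_add, pow_one]
        refine mul_le_mul_of_nonneg_right ?_ (by positivity)
        exact mul_le_mul_of_nonneg_right (hle _ (hκ2 i)) hBv0
  obtain ⟨w, hw, hb⟩ := hz k
  have h1 := RB.aeval_bd hg G hG Bv hBv0 hc3 (W ^ w) (by positivity) (itv F u k) hb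
  obtain ⟨M, hM, hMb⟩ := h1
  refine ⟨M, hM, ?_⟩
  have h2 : ∀ r s, B.bd (M r s) (W ^ (1 + w * g)) := by
    intro r s
    refine B.mono (hMb r s) ?_
    have h3 : (G.support.card : ℝ) ^ e * (Bv * (W ^ w) ^ g) ≤ W ^ (1 + w * g) := by
      rw [← pow_mul, ← mul_assoc, pow_add, pow_one]
      refine mul_le_mul_of_nonneg_right ?_ (by positivity)
      exact mul_le_mul_of_nonneg_right (hle _ hκ3) hBv0
    refine le_trans (div_le_self (by positivity) hDe) h3
  have h3 := B.det_bd hD M (W ^ (1 + w * g)) (by positivity) h2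
  refine B.mono h3 ?_
  have h4 : (D.factorial : ℝ) ^ e * (W ^ (1 + w * g)) ^ D ≤ W ^ (1 + (1 + w * g) * D) := by
    rw [← pow_mul, pow_add, pow_one]
    refine mul_le_mul_of_nonneg_right ?_ (by positivity)
    calc (D.factorial : ℝ) ^ e ≤ (κ : ℝ) ^ e := hle _ hκ4
      _ ≤ (κ : ℝ) ^ e * Bv := le_mul_of_one_le_right (by positivity) hB
  refine h4.trans (pow_le_pow_right₀ hW1 ?_)
  have hdk : 1 ≤ d ^ k := Nat.one_le_pow _ _ (by omega)
  have h5 : w * g ≤ 2 * d ^ k * g := Nat.mul_le_mul_right g (by omega)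
  have h6 : (1 + w * g) * D ≤ (d ^ k + 2 * d ^ k * g) * D := Nat.mul_le_mul_right D (by omega)
  calc 1 + (1 + w * g) * D ≤ d ^ k + (d ^ k + 2 * d ^ k * g) * D := by omega
    _ = (1 + D * (1 + 2 * g)) * d ^ k := by ring

/-- The hypotheses on a prime ideal: homogeneous, of dimension at most one. -/
structure Curve {N : ℕ} (p : Ideal (MvPolynomial (Fin (N + 1)) K)) : Prop where
  prime : p.IsPrime
  hom : ∀ P ∈ p, ∀ m, homogeneousComponent m P ∈ p
  rel : ∀ l i j, ∃ P : MvPolynomial (Fin 3) K, P ≠ 0 ∧ aeval (![X l, X i, X j] : Fin 3 → _) P ∈ p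

/-- The points of the closed set of an ideal. -/
def Zp {N : ℕ} (p : Ideal (MvPolynomial (Fin (N + 1)) K)) : Set (Fin (N + 1) → K) :=
  {y | ∀ P ∈ p, eval y P = 0}

lemma Zp_smul [Infinite K] {N : ℕ} {p : Ideal (MvPolynomial (Fin (N + 1)) K)}
    (hp : ∀ P ∈ p, ∀ m, homogeneousComponent m P ∈ p) {y : Fin (N + 1) → K} (hy : y ∈ Zp p)
    (c : K) : (fun i => c * y i) ∈ Zp p := by
  intro P hP
  conv_lhs => rw [← sum_homogeneousComponent P]
  rw [map_sum]
  refine Finset.sum_eq_zero fun r _ => ?_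
  have h2 := aeval_scale (homogeneousComponent r P) (homogeneousComponent_isHomogeneous r P) c y
  have h3 := hy _ (hp P hP r)
  rw [show aeval y (homogeneousComponent r P) = eval y (homogeneousComponent r P) from rfl, h3,
    mul_zero] at h2
  exact h2

lemma sup_ge (s : Finset K) (h1 : 1 ∈ s) (v : AbsoluteValue K ℝ) :
    1 ≤ ⨆ j : s, v (j : K) ∧ ∀ {σ : Type} (P : MvPolynomial σ K), P.coeffs ⊆ s → ∀ m,
      v (coeff m P) ≤ ⨆ j : s, v (j : K) := by
  have h2 : 1 ≤ ⨆ j : s, v (j : K) := by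
    have h3 := Finite.le_ciSup_of_le (f := fun j : s => v (j : K)) ⟨1, h1⟩ (le_refl _)
    simpa using h3
  refine ⟨h2, fun P hP m => ?_⟩
  by_cases h0 : coeff m P = 0
  · rw [h0, map_zero]
    linarith
  · exact Finite.le_ciSup_of_le (f := fun j : s => v (j : K))
      ⟨coeff m P, hP (coeff_mem_coeffs m h0)⟩ (le_refl _)

lemma finSucc_eval {R : Type} [CommRing R] [Algebra K R] (φ : MvPolynomial (Fin 2) K →ₐ[K] R)
    (x : R) (P : MvPolynomial (Fin 3) K) :
    (finSuccEquiv K 2 P).eval₂ φ.toRingHom x = aeval ![x, φ (X 0), φ (X 1)] P := by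
  induction P using MvPolynomial.induction_on with
  | C a =>
    rw [finSuccEquiv_apply]
    simp only [eval₂Hom_C, RingHom.comp_apply, Polynomial.eval₂_C, aeval_C]
    exact φ.commutes a
  | add p q hp hq => rw [map_add, Polynomial.eval₂_add, hp, hq, map_add]
  | mul_X p n hp =>
    rw [map_mul, Polynomial.eval₂_mul, hp, map_mul, aeval_X]
    congr 1
    refine Fin.cases ?_ (fun j => ?_) n
    · rw [finSuccEquiv_X_zero, Polynomial.eval₂_X]
      rfl
    · rw [finSuccEquiv_X_succ, Polynomial.eval₂_C]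
      fin_cases j <;> rfl

theorem pair_bound [AdmissibleAbsValues K] [CharZero K] {N : ℕ}
    {p : Ideal (MvPolynomial (Fin (N + 1)) K)} (hp : Curve p) {d g : ℕ} (hd : 2 ≤ d) (hg : g ≠ 0)
    (F : Fin (N + 1) → MvPolynomial (Fin (N + 1)) K) (hF : ∀ i, (F i).IsHomogeneous d)
    (G : MvPolynomial (Fin (N + 1)) K) (hG : G.IsHomogeneous g) (i j : Fin (N + 1)) :
    ∃ C : ℝ, 1 ≤ C ∧ ∀ k, aeval (itv F X k) G ∉ p → ∀ y ∈ Zp p, eval (itv F y k) G = 0 →
      mulHeight ![y i, y j] ≤ C ^ d ^ k := by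
  classical
  have hprime := hp.prime
  set φ : MvPolynomial (Fin 2) K →ₐ[K] (MvPolynomial (Fin (N + 1)) K ⧸ p) :=
    (Ideal.Quotient.mkₐ K p).comp (aeval ![X i, X j]) with hφdef
  -- evaluation at the points
  have hψ : ∀ y ∈ Zp p, ∃ ψ : (MvPolynomial (Fin (N + 1)) K ⧸ p) →ₐ[K] K,
      (∀ P, ψ (Ideal.Quotient.mk p P) = eval y P) ∧ ∀ P, ψ (φ P) = eval ![y i, y j] P := by
    intro y hy
    refine ⟨Ideal.Quotient.liftₐ p (aeval y) fun P hP => hy P hP, fun P => ?_, fun P => ?_⟩
    · rfl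
    · have h1 : (Ideal.Quotient.liftₐ p (aeval y) fun P hP => hy P hP) (φ P) =
          aeval y (aeval ![X i, X j] P) := rfl
      rw [h1, ← AlgHom.comp_apply, comp_aeval]
      have h2 : (fun t => (aeval y) ((![X i, X j] : Fin 2 → MvPolynomial (Fin (N + 1)) K) t)) =
          ![y i, y j] := by
        funext t
        fin_cases t <;> simp
      rw [h2]
      rfl
  by_cases hinj : Function.Injective φ
  · -- the generators
    have hgen : Algebra.adjoin K (Set.range fun l : Fin (N + 1) => Ideal.Quotient.mk p (X l)) = ⊤ := by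
      have h1 : (Set.range fun l : Fin (N + 1) => Ideal.Quotient.mk p (X l)) =
          (Ideal.Quotient.mkₐ K p) '' Set.range (X : Fin (N + 1) → MvPolynomial (Fin (N + 1)) K) := by
        rw [← Set.range_comp]
        rfl
      rw [h1, ← AlgHom.map_adjoin, adjoin_range_X, Algebra.map_top, AlgHom.range_eq_top]
      exact Ideal.Quotient.mkₐ_surjective K p
    obtain ⟨D, b, s0, hb1, hind, a, U, ha, hU⟩ := exists_family φ hinj _ hgen (fun l => by
      obtain ⟨P, hP, hPp⟩ := hp.rel l i j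
      refine ⟨finSuccEquiv K 2 P, fun h => hP ((finSuccEquiv K 2).injective (by rw [h, map_zero])), ?_⟩
      rw [finSucc_eval]
      have h1 : (![Ideal.Quotient.mk p (X l), φ (X 0), φ (X 1)] :
          Fin 3 → MvPolynomial (Fin (N + 1)) K ⧸ p) =
          fun t => (Ideal.Quotient.mkₐ K p) ((![X l, X i, X j] : Fin 3 → _) t) := by
        funext t
        fin_cases t
        · rfl
        · change φ (X 0) = _
          rw [hφdef, AlgHom.comp_apply, aeval_X]
          rfl
        · change φ (X 1) = _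
          rw [hφdef, AlgHom.comp_apply, aeval_X]
          rfl
      rw [h1, ← comp_aeval, AlgHom.comp_apply]
      exact Ideal.Quotient.eq_zero_iff_mem.2 hPp)
    have hD : D ≠ 0 := fun h => by
      subst h
      exact s0.elim0
    set u : Fin (N + 1) → (MvPolynomial (Fin (N + 1)) K ⧸ p) :=
      fun l => φ a * Ideal.Quotient.mk p (X l) with hu
    have hUrep : ∀ l, Rep φ b (u l) (U l) := fun l r => hU l r
    set κ : ℕ := D.factorial + G.support.card + ∑ i, (F i).support.card +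
      ∑ t : Fin (N + 1) × Fin D × Fin D, D * (U t.1 t.2.1 t.2.2).support.card with hκ
    have hκ1 : ∀ l r s, D * (U l r s).support.card ≤ κ := fun l r s => by
      have h1 : D * (U l r s).support.card ≤
          ∑ t : Fin (N + 1) × Fin D × Fin D, D * (U t.1 t.2.1 t.2.2).support.card :=
        Finset.single_le_sum (f := fun t : Fin (N + 1) × Fin D × Fin D =>
          D * (U t.1 t.2.1 t.2.2).support.card) (fun _ _ => Nat.zero_le _) (Finset.mem_univ (l, r, s))
      omega
    have hκ2 : ∀ i, (F i).support.card ≤ κ := fun i => by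
      have h1 : (F i).support.card ≤ ∑ i, (F i).support.card :=
        Finset.single_le_sum (f := fun i => (F i).support.card) (fun _ _ => Nat.zero_le _)
          (Finset.mem_univ i)
      omega
    have hκ3 : G.support.card ≤ κ := by omega
    have hκ4 : D.factorial ≤ κ := by omega
    set S : Finset K := insert 1 (G.coeffs ∪ (Finset.univ.biUnion fun i => (F i).coeffs) ∪
      Finset.univ.biUnion fun t : Fin (N + 1) × Fin D × Fin D => (U t.1 t.2.1 t.2.2).coeffs) with hS
    have hS1 : (1 : K) ∈ S := Finset.mem_insert_self _ _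
    have hSG : G.coeffs ⊆ S := fun x hx => by
      simp only [hS, Finset.mem_insert, Finset.mem_union]
      tauto
    have hSF : ∀ i, (F i).coeffs ⊆ S := fun i x hx => by
      simp only [hS, Finset.mem_insert, Finset.mem_union, Finset.mem_biUnion]
      exact Or.inr (Or.inl (Or.inr ⟨i, Finset.mem_univ _, hx⟩))
    have hSU : ∀ l r s, (U l r s).coeffs ⊆ S := fun l r s x hx => by
      simp only [hS, Finset.mem_insert, Finset.mem_union, Finset.mem_biUnion]
      exact Or.inr (Or.inr ⟨(l, r, s), Finset.mem_univ _, hx⟩)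
    have hloc : ∀ {v : AbsoluteValue K ℝ} {e : ℕ} (B : PBds v e) (k : ℕ),
        ∃ M, Rep φ b (aeval (itv F u k) G) M ∧
          B.bd M.det (((κ : ℝ) ^ e * ⨆ j : S, v (j : K)) ^ ((1 + D * (1 + 2 * g)) * d ^ k)) := by
      intro v e B k
      obtain ⟨h1, h2⟩ := sup_ge S hS1 v
      exact local_bd φ hD b hd hg F hF G hG u U hUrep κ hκ1 hκ2 hκ3 hκ4 B _ h1
        (fun l r s m => h2 _ (hSU l r s) m) (fun i m => h2 _ (hSF i) m) (fun m => h2 _ hSG m) k
    have hc0 : (fun j : S => (j : K)) ≠ 0 := fun h => by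
      have := congrFun h ⟨1, hS1⟩
      exact one_ne_zero this
    have hκr : (1 : ℝ) ≤ (κ : ℝ) := by
      exact_mod_cast le_trans (Nat.factorial_pos D) hκ4
    refine ⟨((κ : ℝ) ^ totalWeight K * mulHeight (fun j : S => (j : K))) ^ (1 + D * (1 + 2 * g)),
      one_le_pow₀ (one_le_mul_of_one_le_of_one_le (one_le_pow₀ hκr) (one_le_mulHeight _)),
      fun k hk y hy hy0 => ?_⟩
    obtain ⟨M, hM, -⟩ := hloc (archBds (AbsoluteValue.trivial)) k
    -- the element is not zero
    have hx : aeval (itv F u k) G ≠ 0 := by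
      have h1 : itv F u k = fun i => (φ a) ^ d ^ k * (Ideal.Quotient.mkₐ K p) (itv F X k i) := by
        rw [hu, itv_scale F hF (φ a) _ k]
        funext i
        congr 1
        exact (congrFun (map_itv (Ideal.Quotient.mkₐ K p) F X k) i).symm
      rw [h1, aeval_scale G hG, ← comp_aeval, AlgHom.comp_apply]
      have hφa : φ a ≠ 0 := fun h => ha (hinj (h.trans (map_zero φ).symm))
      refine mul_ne_zero (pow_ne_zero _ (pow_ne_zero _ hφa)) ?_
      exact fun h => hk (Ideal.Quotient.eq_zero_iff_mem.1 h)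
    have hdet : M.det ≠ 0 := Rep.det_ne hind hx hM
    have hvan : ∀ m, eval ![y i, y j] (homogeneousComponent m M.det) = 0 := by
      refine comp_vanish _ _ fun c => ?_
      obtain ⟨ψ, hψ1, hψ2⟩ := hψ _ (Zp_smul hp.hom hy c)
      have h1 : (fun t => c * (![y i, y j] : Fin 2 → K) t) = ![c * y i, c * y j] := by
        funext t
        fin_cases t <;> rfl
      rw [h1, ← hψ2]
      refine Rep.det_zero hb1 hM ψ ?_
      rw [← AlgHom.comp_apply, comp_aeval, map_itv ψ F u k]
      have h2 : (fun l => ψ (u l)) = fun l => (ψ (φ a) * c) * y l := by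
        funext l
        rw [hu, map_mul, hψ1, eval_X, mul_assoc]
      rw [h2, itv_scale F hF, aeval_scale G hG]
      rw [show aeval (itv F y k) G = eval (itv F y k) G from rfl, hy0, mul_zero]
    rw [← pow_mul]
    refine pair_height M.det hdet ![y i, y j] hvan hc0 κ _ (by linarith) hκr (fun v hv => ?_)
      fun v hv => ?_
    · refine ⟨archBds v, ?_⟩
      obtain ⟨M', hM', hb'⟩ := hloc (archBds v) k
      rw [Rep.unique hind hM hM']
      rw [pow_one] at hb'
      exact hb'
    · refine ⟨nonarchBds v (isNonarchimedean v hv), ?_⟩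
      obtain ⟨M', hM', hb'⟩ := hloc (nonarchBds v (isNonarchimedean v hv)) k
      rw [Rep.unique hind hM hM']
      rw [pow_zero, one_mul] at hb'
      exact hb'
  · -- a relation between the two coordinates
    obtain ⟨P, hPp, hP⟩ : ∃ P, φ P = 0 ∧ P ≠ 0 := by
      rw [injective_iff_map_eq_zero] at hinj
      push Not at hinj
      exact hinj
    set S : Finset K := insert 1 P.coeffs with hS
    have hS1 : (1 : K) ∈ S := Finset.mem_insert_self _ _
    have hSP : P.coeffs ⊆ S := Finset.subset_insert _ _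
    have hc0 : (fun j : S => (j : K)) ≠ 0 := fun h => by
      have := congrFun h ⟨1, hS1⟩
      exact one_ne_zero this
    have hκr : (1 : ℝ) ≤ (P.support.card + 1 : ℝ) := by
      have : (0 : ℝ) ≤ P.support.card := Nat.cast_nonneg _
      linarith
    have hC : (1 : ℝ) ≤ (P.support.card + 1 : ℝ) ^ totalWeight K * mulHeight (fun j : S => (j : K)) :=
      one_le_mul_of_one_le_of_one_le (one_le_pow₀ hκr) (one_le_mulHeight _)
    refine ⟨_, hC, fun k _ y hy _ => ?_⟩
    have hvan : ∀ m, eval ![y i, y j] (homogeneousComponent m P) = 0 := by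
      refine comp_vanish _ _ fun c => ?_
      obtain ⟨ψ, hψ1, hψ2⟩ := hψ _ (Zp_smul hp.hom hy c)
      have h1 : (fun t => c * (![y i, y j] : Fin 2 → K) t) = ![c * y i, c * y j] := by
        funext t
        fin_cases t <;> rfl
      rw [h1, ← hψ2, hPp, map_zero]
    refine le_trans (pair_height P hP ![y i, y j] hvan hc0 (P.support.card + 1) 1 (by linarith) hκr
      (fun v hv => ?_) fun v hv => ?_) (pow_le_pow_right₀ hC (Nat.one_le_pow _ _ (by omega)))
    · obtain ⟨h1, h2⟩ := sup_ge S hS1 v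
      refine ⟨archBds v, ?_⟩
      refine (archBds v).mono ((archBds v).poly P _ (by linarith) (h2 P hSP)) ?_
      rw [pow_one, pow_one]
      exact mul_le_mul_of_nonneg_right (by linarith) (by linarith)
    · obtain ⟨h1, h2⟩ := sup_ge S hS1 v
      refine ⟨nonarchBds v (isNonarchimedean v hv), ?_⟩
      refine (nonarchBds v _).mono ((nonarchBds v _).poly P _ (by linarith) (h2 P hSP)) ?_
      rw [pow_zero, pow_one, one_mul]

/-- The height bound for the points of a curve which an iterate maps into a hypersurface. -/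
theorem point_bound [AdmissibleAbsValues K] [CharZero K] {N : ℕ}
    {p : Ideal (MvPolynomial (Fin (N + 1)) K)} (hp : Curve p) {d g : ℕ} (hd : 2 ≤ d) (hg : g ≠ 0)
    (F : Fin (N + 1) → MvPolynomial (Fin (N + 1)) K) (hF : ∀ i, (F i).IsHomogeneous d)
    (G : MvPolynomial (Fin (N + 1)) K) (hG : G.IsHomogeneous g) :
    ∃ C : ℝ, 1 ≤ C ∧ ∀ k, aeval (itv F X k) G ∉ p → ∀ y ∈ Zp p, y ≠ 0 →
      eval (itv F y k) G = 0 → mulHeight y ≤ C ^ d ^ k := by
  classical
  choose C hC1 hC using fun t : Fin (N + 1) × Fin (N + 1) =>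
    pair_bound hp hd hg F hF G hG t.1 t.2
  refine ⟨∏ t, C t, Finset.one_le_prod fun t _ => hC1 t, fun k hk y hy hy0 hyG => ?_⟩
  obtain ⟨i, hi⟩ := Function.ne_iff.1 hy0
  refine (ht_le_prod y i hi).trans ?_
  have h1 : ∏ l, mulHeight ![y i, y l] ≤ ∏ l, C (i, l) ^ d ^ k :=
    Finset.prod_le_prod (fun l _ => (mulHeight_pos _).le) fun l _ => hC (i, l) k hk y hy hyG
  refine h1.trans ?_
  rw [Finset.prod_pow]
  refine pow_le_pow_left₀ (Finset.prod_nonneg fun l _ => by linarith [hC1 (i, l)]) ?_ _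
  rw [Fintype.prod_prod_type]
  have h2 := Finset.prod_le_prod_of_subset_of_one_le (s := {i}) (t := Finset.univ)
    (f := fun i => ∏ l, C (i, l)) (Finset.subset_univ _)
    (fun a _ => Finset.prod_nonneg fun l _ => by linarith [hC1 (a, l)])
    (fun a _ _ => Finset.one_le_prod fun l _ => hC1 (a, l))
  rwa [Finset.prod_singleton] at h2

end Pool.Agent.K6.H53.GP
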