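import Mathlib
import Pool.Agent.K6.H53.GP.Hb

set_option autoImplicit false

/-!
# The growth of the heights in an orbit
-/

namespace Pool.Agent.K6.H53.GP

open MvPolynomial Height Height.AdmissibleAbsValues

/-- The component of degree `d + M` of a combination of forms of degree `d`. -/
lemma comp_mul {K : Type} [Field K] {n d : ℕ} (q f : MvPolynomial (Fin n) K)
    (hf : f.IsHomogeneous d) (M : ℕ) :
    homogeneousComponent (M + d) (q * f) = homogeneousComponent M q * f := by
  conv_lhs => rw [← sum_homogeneousComponent q, Finset.sum_mul, map_sum]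
  have h1 : ∀ r, homogeneousComponent (M + d) (homogeneousComponent r q * f) =
      if M = r then homogeneousComponent r q * f else 0 := by
    intro r
    rw [homogeneousComponent_of_mem ((homogeneousComponent_isHomogeneous r q).mul hf)]
    simp
  rw [Finset.sum_congr rfl fun r _ => h1 r, Finset.sum_ite_eq]
  split_ifs with h
  · rfl
  · rw [homogeneousComponent_eq_zero M q (by
      rw [Finset.mem_range] at h
      omega), zero_mul]

/-- The Nullstellensatz for forms without common zeros. -/
lemma cert {K : Type} [Field K] [Algebra K ℂ] {n d : ℕ} (F : Fin n → MvPolynomial (Fin n) K)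
    (hF : ∀ i, (F i).IsHomogeneous d) (h0 : ∀ z : Fin n → ℂ, (∀ i, aeval z (F i) = 0) → z = 0) :
    ∃ (M : ℕ) (q : Fin n × Fin n → MvPolynomial (Fin n) K), (∀ t, (q t).IsHomogeneous M) ∧
      ∀ k, ∑ j, q (k, j) * F j = X k ^ (M + d) := by
  classical
  have h1 : ∀ k : Fin n, (X k : MvPolynomial (Fin n) K) ∈ (Ideal.span (Set.range F)).radical := by
    intro k
    rw [← vanishingIdeal_zeroLocus_eq_radical (K := ℂ), mem_vanishingIdeal_iff]
    intro z hz
    rw [mem_zeroLocus_iff] at hz
    have h2 := h0 z fun i => hz _ (Ideal.subset_span ⟨i, rfl⟩)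
    rw [h2, aeval_X]
    rfl
  choose m hm using h1
  set M := ∑ k, m k with hM
  have h3 : ∀ k, ∃ c : Fin n → MvPolynomial (Fin n) K, ∑ j, c j * F j = X k ^ (M + d) := by
    intro k
    have h4 : (X k : MvPolynomial (Fin n) K) ^ (M + d) ∈ Ideal.span (Set.range F) := by
      have h5 : m k ≤ M := Finset.single_le_sum (f := m) (fun _ _ => Nat.zero_le _)
        (Finset.mem_univ k)
      exact Ideal.pow_mem_of_pow_mem _ (hm k) (le_trans h5 (Nat.le_add_right _ _))
    obtain ⟨c, hc⟩ := (Submodule.mem_span_range_iff_exists_fun _).1 h4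
    exact ⟨c, hc⟩
  choose c hc using h3
  refine ⟨M, fun t => homogeneousComponent M (c t.1 t.2),
    fun t => homogeneousComponent_isHomogeneous _ _, fun k => ?_⟩
  have h6 := congrArg (homogeneousComponent (M + d)) (hc k)
  rw [map_sum, homogeneousComponent_eq_self (isHomogeneous_X_pow k (M + d))] at h6
  rw [← h6]
  exact Finset.sum_congr rfl fun j _ => (comp_mul _ _ (hF j) M).symm

variable {K : Type} [Field K]

lemma itv_succ' {n : ℕ} (F : Fin n → MvPolynomial (Fin n) K) (x : Fin n → K) (k : ℕ) :
    itv F x (k + 1) = fun i => eval (itv F x k) (F i) := rfl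

lemma itv_add {n : ℕ} (F : Fin n → MvPolynomial (Fin n) K) (x : Fin n → K) (k m : ℕ) :
    itv F x (k + m) = itv F (itv F x k) m := by
  induction m with
  | zero => rfl
  | succ m ih => rw [← add_assoc, itv_succ', ih, itv_succ']

/-- The points of bounded height have finitely many classes. -/
lemma northcott_pts [NumberField K] (n : ℕ) (B : ℝ) : ∃ E : Finset (Fin n → K), ∀ z : Fin n → K, z ≠ 0 →
    logHeight z ≤ B → ∃ c : K, c ≠ 0 ∧ (fun i => c * z i) ∈ E := by
  classical
  have hfin : {x : K | mulHeight₁ x ≤ Real.exp B}.Finite := Northcott.finite_le _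
  have hpi : {z : Fin n → K | ∀ i, z i ∈ {x : K | mulHeight₁ x ≤ Real.exp B}}.Finite :=
    Set.Finite.pi' fun _ => hfin
  refine ⟨hpi.toFinset, fun z hz hB => ?_⟩
  obtain ⟨i, hi⟩ := Function.ne_iff.1 hz
  refine ⟨(z i)⁻¹, inv_ne_zero hi, ?_⟩
  rw [Set.Finite.mem_toFinset]
  intro l
  have h1 : mulHeight₁ ((z i)⁻¹ * z l) ≤ mulHeight z := by
    rw [mul_comm, ← div_eq_mul_inv, mulHeight₁_div_eq_mulHeight]
    have h2 := mulHeight_comp_le (![l, i] : Fin 2 → Fin n) z
    convert h2 using 2
    funext t
    fin_cases t <;> rfl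
  refine h1.trans ?_
  rw [← Real.exp_log (mulHeight_pos z)]
  exact Real.exp_le_exp.2 hB

/-- The orbit is infinite. -/
def NonPrep {n : ℕ} (F : Fin n → MvPolynomial (Fin n) K) (x : Fin n → K) : Prop :=
  ∀ m k : ℕ, m < k → ∀ c : K, itv F x k ≠ fun i => c * itv F x m i

/-- The heights in an infinite orbit grow, uniformly in the starting point. -/
theorem growth [NumberField K] [Algebra K ℂ] {N d : ℕ} (hd : 2 ≤ d) (F : Fin (N + 1) → MvPolynomial (Fin (N + 1)) K)
    (hF : ∀ i, (F i).IsHomogeneous d)
    (h0 : ∀ z : Fin (N + 1) → ℂ, (∀ i, aeval z (F i) = 0) → z = 0) :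
    ∃ (M : ℕ) (c : ℝ), (∀ x : Fin (N + 1) → K, x ≠ 0 → NonPrep F x →
      ∀ n, M ≤ n → (d : ℝ) ^ (n - M) ≤ logHeight (itv F x n)) ∧
      (∀ x : Fin (N + 1) → K, ∀ n, (d : ℝ) ^ n * (logHeight x - c) ≤ logHeight (itv F x n)) ∧
      ∀ x : Fin (N + 1) → K, x ≠ 0 → ¬ NonPrep F x → logHeight x ≤ c ∧
        ∃ m k : ℕ, m < k ∧ k ≤ M ∧ ∃ e : K, itv F x k = fun i => e * itv F x m i := by
  classical
  obtain ⟨M', q, hq, hcert⟩ := cert F hF h0
  obtain ⟨C, hC⟩ := logHeight_eval_ge' (M := M') (N := d) (ι' := Fin (N + 1)) hq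
  set c : ℝ := max (-C) 0 with hc
  have hc0 : 0 ≤ c := le_max_right _ _
  have hd2 : (2 : ℝ) ≤ d := by exact_mod_cast hd
  have hstep : ∀ z : Fin (N + 1) → K, (d : ℝ) * (logHeight z - c) ≤
      logHeight (fun i => eval z (F i)) - c := by
    intro z
    have h1 := hC F (x := z) (fun k => by
      have h2 := congrArg (eval z) (hcert k)
      rw [map_sum] at h2
      simpa using h2)
    have h3 : -C ≤ c := le_max_left _ _
    nlinarith [h1, h3, hc0, hd2]
  have hiter : ∀ (x : Fin (N + 1) → K) (n : ℕ), (d : ℝ) ^ n * (logHeight x - c) ≤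
      logHeight (itv F x n) - c := by
    intro x n
    induction n with
    | zero => simp [itv]
    | succ n ih =>
      rw [itv_succ']
      refine le_trans ?_ (hstep _)
      rw [pow_succ']
      calc (d : ℝ) * (d : ℝ) ^ n * (logHeight x - c) = d * ((d : ℝ) ^ n * (logHeight x - c)) := by ring
        _ ≤ d * (logHeight (itv F x n) - c) := mul_le_mul_of_nonneg_left ih (by linarith)
  have hnz : ∀ x : Fin (N + 1) → K, x ≠ 0 → ∀ n, itv F x n ≠ 0 := by
    intro x hx n
    induction n with
    | zero => exact hx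
    | succ n ih =>
      intro h
      apply ih
      have h1 := h0 (fun i => algebraMap K ℂ (itv F x n i)) fun i => by
        have h2 := congrFun h i
        rw [itv_succ'] at h2
        have h3 := aeval_algebraMap_apply ℂ (itv F x n) (F i)
        refine h3.trans ?_
        change algebraMap K ℂ (eval (itv F x n) (F i)) = 0
        have h5 : eval (itv F x n) (F i) = 0 := h2
        rw [h5, map_zero]
      funext i
      have h4 := congrFun h1 i
      exact (map_eq_zero _).1 h4
  obtain ⟨E, hE⟩ := northcott_pts (K := K) (N + 1) (c + 1)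
  -- two of the first points are proportional if all have small heights
  have hpig : ∀ x : Fin (N + 1) → K, x ≠ 0 → (∀ j ≤ E.card, logHeight (itv F x j) ≤ c + 1) →
      ∃ m k : ℕ, m < k ∧ k ≤ E.card ∧ ∃ e : K, itv F x k = fun i => e * itv F x m i := by
    intro x hx hno
    have h1 : ∀ j : Fin (E.card + 1), ∃ e : K, e ≠ 0 ∧ (fun i => e * itv F x j i) ∈ E := fun j =>
      hE _ (hnz x hx j) (hno j (by omega))
    choose e he0 heE using h1
    obtain ⟨j1, j2, hne, heq⟩ := Fintype.exists_ne_map_eq_of_card_lt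
      (fun j : Fin (E.card + 1) => (⟨fun i => e j * itv F x j i, heE j⟩ : E)) (by simp)
    have heq' : (fun i => e j1 * itv F x j1 i) = fun i => e j2 * itv F x j2 i :=
      congrArg Subtype.val heq
    rcases lt_or_gt_of_ne (fun h => hne (Fin.ext h) : (j1 : ℕ) ≠ j2) with h | h
    · refine ⟨j1, j2, h, by omega, (e j2)⁻¹ * e j1, ?_⟩
      funext i
      have := congrFun heq' i
      rw [mul_assoc, this, inv_mul_cancel_left₀ (he0 j2)]
    · refine ⟨j2, j1, h, by omega, (e j1)⁻¹ * e j2, ?_⟩
      funext i
      have := congrFun heq' i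
      rw [mul_assoc, ← this, inv_mul_cancel_left₀ (he0 j1)]
  refine ⟨E.card, c, fun x hx hnp n hn => ?_, fun x n => by linarith [hiter x n],
    fun x hx hnp => ?_⟩
  swap
  · unfold NonPrep at hnp
    push Not at hnp
    obtain ⟨m, k, hmk, e, he⟩ := hnp
    have he0 : e ≠ 0 := by
      rintro rfl
      apply hnz x hx k
      rw [he]
      funext i
      simp
    have hper : ∀ j, m ≤ j → logHeight (itv F x j) ≤ c := by
      intro j hj
      have h1 : itv F x (j + (k - m)) = fun i => e ^ d ^ (j - m) * itv F x j i := by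
        rw [show j + (k - m) = k + (j - m) by omega, itv_add, he, itv_scale F hF, ← itv_add,
          show m + (j - m) = j by omega]
      have h2 : logHeight (itv F x (j + (k - m))) = logHeight (itv F x j) := by
        rw [h1]
        exact logHeight_smul_eq_logHeight _ (pow_ne_zero _ he0)
      have h3 := hiter (itv F x j) (k - m)
      rw [← itv_add, h2] at h3
      by_contra hlt
      push Not at hlt
      have h4 : (2 : ℝ) ≤ (d : ℝ) ^ (k - m) := by
        calc (2 : ℝ) ≤ d := hd2
          _ = (d : ℝ) ^ 1 := (pow_one _).symm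
          _ ≤ (d : ℝ) ^ (k - m) := pow_le_pow_right₀ (by linarith) (by omega)
      nlinarith
    have hall : ∀ j, logHeight (itv F x j) ≤ c := by
      intro j
      by_cases hj : m ≤ j
      · exact hper j hj
      · have h1 := hiter (itv F x j) (m - j)
        rw [← itv_add, show j + (m - j) = m by omega] at h1
        have h2 := hper m le_rfl
        by_contra hlt
        push Not at hlt
        have h3 : 0 < (d : ℝ) ^ (m - j) * (logHeight (itv F x j) - c) :=
          mul_pos (by positivity) (by linarith)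
        linarith
    exact ⟨hall 0, hpig x hx fun j _ => by linarith [hall j]⟩
  -- one of the first points has a large height
  obtain ⟨j, hj, hjh⟩ : ∃ j, j ≤ E.card ∧ c + 1 < logHeight (itv F x j) := by
    by_contra hno
    push Not at hno
    obtain ⟨m, k, hmk, -, e, he⟩ := hpig x hx hno
    exact hnp m k hmk e he
  have h1 := hiter (itv F x j) (n - j)
  rw [← itv_add, show j + (n - j) = n by omega] at h1
  have h2 : (d : ℝ) ^ (n - E.card) ≤ (d : ℝ) ^ (n - j) :=
    pow_le_pow_right₀ (by linarith) (by omega)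
  have h3 : (d : ℝ) ^ (n - j) * 1 ≤ (d : ℝ) ^ (n - j) * (logHeight (itv F x j) - c) :=
    mul_le_mul_of_nonneg_left (by linarith) (by positivity)
  linarith

end Pool.Agent.K6.H53.GP
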