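import Mathlib
import Pool.Agent.K6.H53.GP.Gr
import Pool.Agent.H936R2.Per

set_option autoImplicit false

/-!
# The decomposition of the return set
-/

namespace Pool.Agent.K6.H53.GP

open MvPolynomial Height Height.AdmissibleAbsValues

variable {K : Type} [Field K]

/-- The ideal contains the homogeneous components of its elements. -/
def HomI {n : ℕ} (I : Ideal (MvPolynomial (Fin n) K)) : Prop :=
  ∀ P ∈ I, ∀ m, homogeneousComponent m P ∈ I

section

attribute [local instance] MvPolynomial.gradedAlgebra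

lemma min_hom {n : ℕ} {I q : Ideal (MvPolynomial (Fin n) K)} (hI : HomI I)
    (hq : q ∈ I.minimalPrimes) : HomI q := by
  have hprime : q.IsPrime := hq.1.1
  have hcore : ((q.homogeneousCore (homogeneousSubmodule (Fin n) K)).toIdeal).IsPrime :=
    hprime.homogeneousCore
  have hle : (q.homogeneousCore (homogeneousSubmodule (Fin n) K)).toIdeal ≤ q :=
    Ideal.toIdeal_homogeneousCore_le _ q
  have hIle : I ≤ (q.homogeneousCore (homogeneousSubmodule (Fin n) K)).toIdeal := by
    intro P hP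
    rw [← sum_homogeneousComponent P]
    refine Ideal.sum_mem _ fun r _ => ?_
    exact Ideal.mem_homogeneousCore_of_homogeneous_of_mem
      ⟨r, homogeneousComponent_isHomogeneous r P⟩ (hq.1.2 (hI P hP r))
  have h1 : q ≤ (q.homogeneousCore (homogeneousSubmodule (Fin n) K)).toIdeal :=
    hq.2 ⟨hcore, hIle⟩ hle
  intro P hP m
  exact hle (homogeneousComponent_mem_of_mem
    (q.homogeneousCore (homogeneousSubmodule (Fin n) K)).isHomogeneous (h1 hP) m)

end

lemma sup_hom {n : ℕ} {I J : Ideal (MvPolynomial (Fin n) K)} (hI : HomI I) (hJ : HomI J) :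
    HomI (I ⊔ J) := by
  intro P hP m
  obtain ⟨a, ha, b, hb, rfl⟩ := Submodule.mem_sup.1 hP
  rw [map_add]
  exact Submodule.add_mem_sup (hI a ha m) (hJ b hb m)

lemma Zp_prop [Infinite K] {N : ℕ} {J : Ideal (MvPolynomial (Fin (N + 1)) K)} (hJ : HomI J)
    {x : Fin (N + 1) → K} {c : K} (hc : c ≠ 0) : (fun i => c * x i) ∈ Zp J ↔ x ∈ Zp J := by
  constructor
  · intro h
    have h1 := Zp_smul hJ h c⁻¹
    have h2 : (fun i => c⁻¹ * (c * x i)) = x := by
      funext i
      rw [inv_mul_cancel_left₀ hc]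
    rwa [h2] at h1
  · exact fun h => Zp_smul hJ h c

section bounds

variable [AdmissibleAbsValues K] [CharZero K] {N : ℕ} {p : Ideal (MvPolynomial (Fin (N + 1)) K)}
  (hp : Curve p) {d : ℕ} (hd : 2 ≤ d) (F : Fin (N + 1) → MvPolynomial (Fin (N + 1)) K)
  (hF : ∀ i, (F i).IsHomogeneous d)
include hp hd hF

lemma gen_bound (P : MvPolynomial (Fin (N + 1)) K) :
    ∃ C : ℝ, 1 ≤ C ∧ ∀ k, aeval (itv F X k) P ∉ p → ∀ y ∈ Zp p, y ≠ 0 →
      (∀ r, eval (itv F y k) (homogeneousComponent r P) = 0) → mulHeight y ≤ C ^ d ^ k := by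
  classical
  have h1 : ∀ r : ℕ, ∃ C : ℝ, 1 ≤ C ∧ ∀ k, aeval (itv F X k) (homogeneousComponent r P) ∉ p →
      ∀ y ∈ Zp p, y ≠ 0 → eval (itv F y k) (homogeneousComponent r P) = 0 →
        mulHeight y ≤ C ^ d ^ k := by
    intro r
    by_cases hr : r = 0
    · subst hr
      refine ⟨1, le_refl _, fun k hk y hy hy0 h0 => ?_⟩
      exfalso
      apply hk
      rw [homogeneousComponent_zero] at h0 ⊢
      rw [eval_C] at h0
      rw [h0, C_0, map_zero]
      exact p.zero_mem
    · exact point_bound hp hd hr F hF _ (homogeneousComponent_isHomogeneous r P)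
  choose C hC1 hC using h1
  refine ⟨∏ r ∈ Finset.range (P.totalDegree + 1), C r, Finset.one_le_prod fun r _ => hC1 r,
    fun k hk y hy hy0 h0 => ?_⟩
  obtain ⟨r, hr, hrk⟩ : ∃ r ∈ Finset.range (P.totalDegree + 1),
      aeval (itv F X k) (homogeneousComponent r P) ∉ p := by
    by_contra hno
    push Not at hno
    apply hk
    have h3 : aeval (itv F (X : Fin (N + 1) → MvPolynomial (Fin (N + 1)) K) k) P =
        ∑ r ∈ Finset.range (P.totalDegree + 1),
          aeval (itv F (X : Fin (N + 1) → MvPolynomial (Fin (N + 1)) K) k)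
            (homogeneousComponent r P) := by
      rw [← map_sum, sum_homogeneousComponent]
    rw [h3]
    exact Ideal.sum_mem _ hno
  refine (hC r k hrk y hy hy0 (h0 r)).trans ?_
  refine pow_le_pow_left₀ (by linarith [hC1 r]) ?_ _
  have h2 := Finset.prod_le_prod_of_subset_of_one_le (s := {r})
    (t := Finset.range (P.totalDegree + 1)) (f := C) (by
      rw [Finset.singleton_subset_iff]
      exact hr) (fun a _ => by linarith [hC1 a]) (fun a _ _ => hC1 a)
  rwa [Finset.prod_singleton] at h2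

lemma ideal_bound (J : Ideal (MvPolynomial (Fin (N + 1)) K)) (hJ : HomI J) :
    ∃ C : ℝ, 1 ≤ C ∧ ∀ k, (∃ G ∈ J, aeval (itv F X k) G ∉ p) → ∀ y ∈ Zp p, y ≠ 0 →
      itv F y k ∈ Zp J → mulHeight y ≤ C ^ d ^ k := by
  classical
  obtain ⟨E, hE⟩ : J.FG := IsNoetherian.noetherian J
  choose C hC1 hC using fun P => gen_bound hp hd F hF P
  refine ⟨∏ P ∈ E, C P, Finset.one_le_prod fun P _ => hC1 P, fun k hk y hy hy0 h0 => ?_⟩
  obtain ⟨P, hPE, hPk⟩ : ∃ P ∈ E, aeval (itv F X k) P ∉ p := by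
    by_contra hno
    push Not at hno
    obtain ⟨G, hG, hGp⟩ := hk
    apply hGp
    have h1 : J ≤ Ideal.comap (aeval (itv F X k) :
        MvPolynomial (Fin (N + 1)) K →ₐ[K] MvPolynomial (Fin (N + 1)) K).toRingHom p := by
      rw [← hE]
      exact Submodule.span_le.2 fun P hP => hno P hP
    exact h1 hG
  have hPJ : P ∈ J := by
    rw [← hE]
    exact Submodule.subset_span hPE
  refine (hC P k hPk y hy hy0 fun r => h0 _ (hJ P hPJ r)).trans ?_
  refine pow_le_pow_left₀ (by linarith [hC1 P]) ?_ _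
  have h2 := Finset.prod_le_prod_of_subset_of_one_le (s := {P}) (t := E) (f := C) (by
      rw [Finset.singleton_subset_iff]
      exact hPE) (fun a _ => by linarith [hC1 a]) (fun a _ _ => hC1 a)
  rwa [Finset.prod_singleton] at h2

end bounds

/-- A finite union of arithmetic progressions. -/
def FUAP (A : Set ℕ) : Prop :=
  ∃ T : Finset (ℕ × ℕ), A = {n : ℕ | ∃ q ∈ T, ∃ m : ℕ, n = q.1 * m + q.2}

lemma fuap_of (Z : Set ℕ) (n0 k : ℕ) (hk : 0 < k)
    (h : ∀ r, {t : ℕ | n0 + r + k * t ∈ Z}.Infinite → ∀ t, n0 + r + k * t ∈ Z) : FUAP Z :=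
  Pool.Agent.H936R2.exists_progressions Z n0 k hk h

lemma fuap_empty : FUAP ∅ := ⟨∅, by
  ext n
  simp⟩

lemma eval_aeval_itv {n : ℕ} (F : Fin n → MvPolynomial (Fin n) K) (x : Fin n → K) (k : ℕ)
    (G : MvPolynomial (Fin n) K) : eval x (aeval (itv F X k) G) = eval (itv F x k) G := by
  let ev : MvPolynomial (Fin n) K →ₐ[K] K := aeval x
  have h1 := map_itv ev F X k
  have h2 : ev (aeval (itv F X k) G) = aeval (fun i => ev (itv F X k i)) G := by
    rw [← AlgHom.comp_apply, comp_aeval]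
  have h3 : (fun i => ev (itv F X k i)) = itv F x k := by
    rw [h1]
    congr 1
    funext i
    exact aeval_X x i
  rw [h3] at h2
  exact h2

/-- The return set of a finite orbit. -/
lemma fuap_prep [Infinite K] {N d : ℕ} (F : Fin (N + 1) → MvPolynomial (Fin (N + 1)) K)
    (hF : ∀ i, (F i).IsHomogeneous d) (J : Ideal (MvPolynomial (Fin (N + 1)) K)) (hJ : HomI J)
    (x : Fin (N + 1) → K) (hx : ∀ n, itv F x n ≠ 0) (hnp : ¬ NonPrep F x) :
    FUAP {n | itv F x n ∈ Zp J} := by
  unfold NonPrep at hnp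
  push Not at hnp
  obtain ⟨m, k, hmk, c, hc⟩ := hnp
  have hc0 : c ≠ 0 := by
    rintro rfl
    apply hx k
    rw [hc]
    funext i
    simp
  have h1 : ∀ t, ∃ e : K, e ≠ 0 ∧ itv F x (m + (k - m) * t) = fun i => e * itv F x m i := by
    intro t
    induction t with
    | zero => exact ⟨1, one_ne_zero, by simp⟩
    | succ t ih =>
      obtain ⟨e, he, heq⟩ := ih
      refine ⟨e ^ d ^ (k - m) * c, mul_ne_zero (pow_ne_zero _ he) hc0, ?_⟩
      have h2 : m + (k - m) * (t + 1) = (m + (k - m) * t) + (k - m) := by ring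
      rw [h2, itv_add, heq, itv_scale F hF, ← itv_add, show m + (k - m) = k by omega, hc]
      funext i
      ring
  refine fuap_of _ m (k - m) (by omega) fun r hinf t => ?_
  have h2 : ∀ t, itv F x (m + r + (k - m) * t) ∈ Zp J ↔ itv F x (m + r) ∈ Zp J := by
    intro t
    obtain ⟨e, he, heq⟩ := h1 t
    rw [show m + r + (k - m) * t = (m + (k - m) * t) + r by ring, itv_add, heq, itv_scale F hF,
      itv_add]
    exact Zp_prop hJ (pow_ne_zero _ he)
  obtain ⟨t', ht'⟩ := hinf.nonempty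
  exact (h2 t).2 ((h2 t').1 ht')

/-- The main theorem over a number field. -/
theorem gapK [NumberField K] [Algebra K ℂ] {N d : ℕ} (hd : 2 ≤ d)
    (F : Fin (N + 1) → MvPolynomial (Fin (N + 1)) K)
    (hF : ∀ i, (F i).IsHomogeneous d)
    (h0 : ∀ z : Fin (N + 1) → ℂ, (∀ i, aeval z (F i) = 0) → z = 0)
    (I J : Ideal (MvPolynomial (Fin (N + 1)) K)) (hJ : HomI J)
    (hinv : ∀ G ∈ I, aeval F G ∈ I)
    (H : ∀ q ∈ I.minimalPrimes, J ≤ q ∨ ∀ p ∈ (q ⊔ J).minimalPrimes, Curve p) :
    ∃ s L : ℕ, ∀ x : Fin (N + 1) → K, x ≠ 0 → x ∈ Zp I →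
      ¬ NonPrep F x ∨ (FUAP {n | itv F x n ∈ Zp J} ∧
        ∃ n k : ℕ, 0 < k ∧ ∀ t, itv F x (n + k * t) ∈ Zp J) ∨
      (NonPrep F x ∧ ∃ (A : Set ℕ) (T : Fin s → Set ℕ),
        FUAP A ∧ ((∀ q ∈ I.minimalPrimes, ¬ J ≤ q) → A = ∅) ∧
        {n | itv F x n ∈ Zp J} = A ∪ ⋃ i, T i ∧
        ∀ i m n, m < n → m ∈ T i → n ∈ T i → logHeight (itv F x m) ≤ (d : ℝ) ^ (n - m + L)) := by
  classical
  obtain ⟨M, c, hgrow, -, -⟩ := growth hd F hF h0
  have hd2 : (2 : ℝ) ≤ d := by exact_mod_cast hd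
  have hnz : ∀ x : Fin (N + 1) → K, x ≠ 0 → ∀ n, itv F x n ≠ 0 := by
    intro x hx n
    induction n with
    | zero => exact hx
    | succ n ih =>
      intro h
      apply ih
      have h1 := h0 (fun i => algebraMap K ℂ (itv F x n i)) fun i => by
        have h2 := congrFun h i
        rw [itv_succ'] at h2
        have h3 := aeval_algebraMap_apply ℂ (itv F x n) (F i)
        refine h3.trans ?_
        change algebraMap K ℂ (eval (itv F x n) (F i)) = 0
        have h5 : eval (itv F x n) (F i) = 0 := h2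
        rw [h5, map_zero]
      funext i
      have h4 := congrFun h1 i
      exact (map_eq_zero _).1 h4
  -- the curves
  set PP : Set (Ideal (MvPolynomial (Fin (N + 1)) K)) :=
    ⋃ q ∈ {q ∈ I.minimalPrimes | ¬ J ≤ q}, (q ⊔ J).minimalPrimes with hPP
  have hIfin : I.minimalPrimes.Finite := Ideal.finite_minimalPrimes_of_isNoetherianRing _ I
  have hPPfin : PP.Finite := by
    refine Set.Finite.biUnion (hIfin.subset fun q hq => hq.1) fun q _ =>
      Ideal.finite_minimalPrimes_of_isNoetherianRing _ _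
  have hPPc : ∀ p ∈ PP, Curve p := by
    intro p hp
    rw [hPP, Set.mem_iUnion₂] at hp
    obtain ⟨q, ⟨hq, hJq⟩, hpq⟩ := hp
    exact (H q hq).resolve_left hJq p hpq
  have hPPJ : ∀ p ∈ PP, J ≤ p := by
    intro p hp
    rw [hPP, Set.mem_iUnion₂] at hp
    obtain ⟨q, ⟨hq, hJq⟩, hpq⟩ := hp
    exact le_sup_right.trans hpq.1.2
  obtain ⟨s, ⟨e⟩⟩ : ∃ s, Nonempty (Fin s ≃ PP) := by
    have := hPPfin.fintype
    exact ⟨Fintype.card PP, ⟨(Fintype.equivFin PP).symm⟩⟩
  -- the bounds
  have hB : ∀ i : Fin s, ∃ C : ℝ, 1 ≤ C ∧ ∀ k, (∃ G ∈ (e i : Ideal (MvPolynomial (Fin (N + 1)) K)), aeval (itv F X k) G ∉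
      (e i : Ideal (MvPolynomial (Fin (N + 1)) K))) → ∀ y ∈ Zp (e i : Ideal (MvPolynomial (Fin (N + 1)) K)), y ≠ 0 →
      itv F y k ∈ Zp (e i : Ideal (MvPolynomial (Fin (N + 1)) K)) → mulHeight y ≤ C ^ d ^ k := fun i =>
    ideal_bound (hPPc _ (e i).2) hd F hF _ (hPPc _ (e i).2).hom
  choose C hC1 hC using hB
  obtain ⟨L, hL⟩ : ∃ L : ℕ, ∀ i, Real.log (C i) ≤ (d : ℝ) ^ L := by
    have h1 : ∀ i, ∃ L : ℕ, Real.log (C i) ≤ (d : ℝ) ^ L := fun i =>
      (pow_unbounded_of_one_lt (Real.log (C i)) (by linarith : (1 : ℝ) < d)).imp fun _ h => h.le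
    choose L hL using h1
    refine ⟨∑ i, L i, fun i => (hL i).trans (pow_le_pow_right₀ (by linarith) ?_)⟩
    exact Finset.single_le_sum (f := L) (fun _ _ => Nat.zero_le _) (Finset.mem_univ i)
  refine ⟨s, L, fun x hx hxI => ?_⟩
  by_cases hnp : NonPrep F x
  swap
  · exact Or.inl hnp
  right
  -- the orbit meets a periodic curve
  by_cases hper : ∃ i : Fin s, ∃ k, 1 ≤ k ∧ (∀ G ∈ (e i : Ideal (MvPolynomial (Fin (N + 1)) K)), aeval (itv F X k) G ∈
      (e i : Ideal (MvPolynomial (Fin (N + 1)) K))) ∧ ∃ n0, itv F x n0 ∈ Zp (e i : Ideal (MvPolynomial (Fin (N + 1)) K))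
  · left
    obtain ⟨i, k, hk, hkp, n0, hn0⟩ := hper
    have hcur := hPPc _ (e i).2
    have hit : ∀ t, itv F x (n0 + k * t) ∈ Zp (e i : Ideal (MvPolynomial (Fin (N + 1)) K)) := by
      intro t
      induction t with
      | zero => exact hn0
      | succ t ih =>
        rw [show n0 + k * (t + 1) = (n0 + k * t) + k by ring, itv_add]
        intro G hG
        rw [← eval_aeval_itv]
        exact ih _ (hkp G hG)
    refine ⟨?_, n0, k, by omega, fun t G hG => hit t G (hPPJ _ (e i).2 hG)⟩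
    refine fuap_of _ n0 k (by omega) fun r hinf t => ?_
    by_cases hr : ∀ G ∈ J, aeval (itv F X r) G ∈ (e i : Ideal (MvPolynomial (Fin (N + 1)) K))
    · change itv F x (n0 + r + k * t) ∈ Zp J
      rw [show n0 + r + k * t = (n0 + k * t) + r by ring, itv_add]
      intro G hG
      rw [← eval_aeval_itv]
      exact hit t _ (hr G hG)
    · exfalso
      push Not at hr
      obtain ⟨C', hC'1, hC'⟩ := ideal_bound hcur hd F hF J hJ
      apply hinf
      obtain ⟨B, hB⟩ := pow_unbounded_of_one_lt (Real.log (C' ^ d ^ r)) (by linarith : (1 : ℝ) < d)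
      refine (Set.finite_lt_nat (M + B + 1)).subset fun t ht => ?_
      by_contra hlt
      have hlt' : M + B + 1 ≤ t := not_lt.1 hlt
      have h1 : mulHeight (itv F x (n0 + k * t)) ≤ C' ^ d ^ r := by
        refine hC' r hr _ (hit t) (hnz x hx _) ?_
        rw [← itv_add, show (n0 + k * t) + r = n0 + r + k * t by ring]
        exact ht
      have hkt : t ≤ k * t := Nat.le_mul_of_pos_left t (by omega)
      have h2 := hgrow x hx hnp (n0 + k * t) (by omega)
      have h3 : logHeight (itv F x (n0 + k * t)) ≤ Real.log (C' ^ d ^ r) :=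
        Real.log_le_log (mulHeight_pos _) h1
      have h4 : (d : ℝ) ^ B ≤ (d : ℝ) ^ (n0 + k * t - M) :=
        pow_le_pow_right₀ (by linarith) (by omega)
      linarith
  -- the orbit meets no periodic curve
  right
  refine ⟨hnp, ?_⟩
  push Not at hper
  -- the sequence of the components
  have hσ : ∀ q : I.minimalPrimes, ∃ q' : I.minimalPrimes, ∀ G ∈ q'.1, aeval F G ∈ q.1 := by
    intro q
    have hqp : q.1.IsPrime := q.2.1.1
    have h1 : (Ideal.comap (aeval F : MvPolynomial (Fin (N + 1)) K →ₐ[K]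
        MvPolynomial (Fin (N + 1)) K).toRingHom q.1).IsPrime := Ideal.IsPrime.comap _
    have h2 : I ≤ Ideal.comap (aeval F : MvPolynomial (Fin (N + 1)) K →ₐ[K]
        MvPolynomial (Fin (N + 1)) K).toRingHom q.1 := fun G hG => q.2.1.2 (hinv G hG)
    obtain ⟨q', hq', hle⟩ := Ideal.exists_minimalPrimes_le h2
    exact ⟨⟨q', hq'⟩, fun G hG => hle hG⟩
  choose σ hσ using hσ
  obtain ⟨q0, hq0⟩ : ∃ q0 : I.minimalPrimes, x ∈ Zp q0.1 := by
    have h1 : I ≤ RingHom.ker (eval x) := fun G hG => hxI G hG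
    have h2 : (RingHom.ker (eval x : MvPolynomial (Fin (N + 1)) K →+* K)).IsPrime :=
      RingHom.ker_isPrime _
    obtain ⟨q', hq', hle⟩ := Ideal.exists_minimalPrimes_le h1
    exact ⟨⟨q', hq'⟩, fun G hG => hle hG⟩
  have hqn : ∀ n, itv F x n ∈ Zp (σ^[n] q0).1 := by
    intro n
    induction n with
    | zero => exact hq0
    | succ n ih =>
      rw [Function.iterate_succ_apply']
      intro G hG
      have h1 := ih _ (hσ _ G hG)
      have h2 := eval_aeval_itv F (itv F x n) 1 G
      have h3 : itv F X 1 = F := by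
        funext i
        simp only [itv]
        rw [aeval_X_left]
        rfl
      rw [h3, h1] at h2
      rw [itv_add]
      exact h2.symm
  set A : Set ℕ := {n | J ≤ (σ^[n] q0).1} with hA
  refine ⟨A, fun i => {n | itv F x n ∈ Zp (e i : Ideal (MvPolynomial (Fin (N + 1)) K))}, ?_, ?_,
    ?_, ?_⟩
  · have := hIfin.to_subtype
    obtain ⟨n1, n2, hne, heq⟩ := Finite.exists_ne_map_eq_of_infinite fun n : ℕ => σ^[n] q0
    obtain ⟨m, k, hk, hmk⟩ : ∃ m k, 0 < k ∧ σ^[m + k] q0 = σ^[m] q0 := by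
      rcases lt_or_gt_of_ne hne with h | h
      · exact ⟨n1, n2 - n1, by omega, by
          rw [show n1 + (n2 - n1) = n2 by omega]
          exact heq.symm⟩
      · exact ⟨n2, n1 - n2, by omega, by
          rw [show n2 + (n1 - n2) = n1 by omega]
          exact heq⟩
    have h1 : ∀ r t, σ^[m + r + k * t] q0 = σ^[m + r] q0 := by
      intro r t
      have h2 : ∀ t, σ^[m + k * t] q0 = σ^[m] q0 := by
        intro t
        induction t with
        | zero => rfl
        | succ t ih =>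
          rw [show m + k * (t + 1) = k + (m + k * t) by ring, Function.iterate_add_apply, ih,
            ← Function.iterate_add_apply, add_comm k m, hmk]
      rw [show m + r + k * t = r + (m + k * t) by ring, Function.iterate_add_apply, h2,
        ← Function.iterate_add_apply, add_comm r m]
    refine fuap_of _ m k hk fun r hinf t => ?_
    obtain ⟨t', ht'⟩ := hinf.nonempty
    have ht'' : J ≤ (σ^[m + r + k * t'] q0).1 := ht'
    change J ≤ (σ^[m + r + k * t] q0).1
    rw [h1] at ht'' ⊢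
    exact ht''
  · intro hno
    rw [hA, Set.eq_empty_iff_forall_notMem]
    intro n hn
    exact hno _ (σ^[n] q0).2 hn
  · ext n
    constructor
    · intro hn
      by_cases hJq : J ≤ (σ^[n] q0).1
      · exact Or.inl hJq
      · right
        have h1 : (σ^[n] q0).1 ⊔ J ≤ RingHom.ker (eval (itv F x n)) :=
          sup_le (fun G hG => hqn n G hG) fun G hG => hn G hG
        have h2 : (RingHom.ker (eval (itv F x n) : MvPolynomial (Fin (N + 1)) K →+* K)).IsPrime :=
          RingHom.ker_isPrime _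
        obtain ⟨p', hp', hle⟩ := Ideal.exists_minimalPrimes_le h1
        have hpPP : p' ∈ PP := by
          rw [hPP, Set.mem_iUnion₂]
          exact ⟨_, ⟨(σ^[n] q0).2, hJq⟩, hp'⟩
        rw [Set.mem_iUnion]
        refine ⟨e.symm ⟨p', hpPP⟩, ?_⟩
        change itv F x n ∈ Zp (e (e.symm ⟨p', hpPP⟩) : Ideal (MvPolynomial (Fin (N + 1)) K))
        rw [Equiv.apply_symm_apply]
        exact fun G hG => hle hG
    · rintro (hn | hn)
      · exact fun G hG => hqn n G (hn hG)
      · rw [Set.mem_iUnion] at hn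
        obtain ⟨i, hi⟩ := hn
        exact fun G hG => hi G (hPPJ _ (e i).2 hG)
  · intro i m n hmn hm hn
    have hk : ∃ G ∈ (e i : Ideal (MvPolynomial (Fin (N + 1)) K)),
        aeval (itv F X (n - m)) G ∉ (e i : Ideal (MvPolynomial (Fin (N + 1)) K)) := by
      by_contra hno
      push Not at hno
      exact hper i (n - m) (by omega) hno m hm
    have h1 := hC i (n - m) hk _ hm (hnz x hx m) (by
      rw [← itv_add, show m + (n - m) = n by omega]
      exact hn)
    have h2 : logHeight (itv F x m) ≤ Real.log (C i ^ d ^ (n - m)) :=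
      Real.log_le_log (mulHeight_pos _) h1
    rw [Real.log_pow] at h2
    refine h2.trans ?_
    rw [Nat.cast_pow, pow_add]
    exact mul_le_mul_of_nonneg_left (hL i) (by positivity)

end Pool.Agent.K6.H53.GP
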