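import Mathlib
import Pool.Agent.K6.H53.GP.Dc

set_option autoImplicit false

/-!
# From closed sets over the complex numbers to ideals over a number field
-/

namespace Pool.Agent.K6.H53.GP

open MvPolynomial Height Height.AdmissibleAbsValues

section number

variable {K : Type} [Field K]

/-- The two forms of the gap principle over a number field. -/
theorem gapK2 [NumberField K] [Algebra K ℂ] {N d : ℕ} (hd : 2 ≤ d)
    (F : Fin (N + 1) → MvPolynomial (Fin (N + 1)) K)
    (hF : ∀ i, (F i).IsHomogeneous d)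
    (h0 : ∀ z : Fin (N + 1) → ℂ, (∀ i, aeval z (F i) = 0) → z = 0)
    (I J : Ideal (MvPolynomial (Fin (N + 1)) K)) (hJ : HomI J)
    (hinv : ∀ G ∈ I, aeval F G ∈ I)
    (H : ∀ q ∈ I.minimalPrimes, J ≤ q ∨ ∀ p ∈ (q ⊔ J).minimalPrimes, Curve p) :
    ∃ s : ℕ, (∃ C : ℤ, ∀ x : Fin (N + 1) → K, x ≠ 0 → x ∈ Zp I →
      (FUAP {n | itv F x n ∈ Zp J} ∧ ∃ n k : ℕ, 0 < k ∧ ∀ t, itv F x (n + k * t) ∈ Zp J) ∨
        ∃ (A : Set ℕ) (T : Fin s → Set ℕ),
        FUAP A ∧ ((∀ q ∈ I.minimalPrimes, ¬ J ≤ q) → A = ∅) ∧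
        {n | itv F x n ∈ Zp J} = A ∪ ⋃ i, T i ∧
        ∀ i, ∀ m ∈ T i, ∀ n ∈ T i, m < n → 2 * (m : ℤ) ≤ n + C) ∧
    ∀ C : ℤ, ∃ E : Finset (Fin (N + 1) → K), ∀ x : Fin (N + 1) → K, x ≠ 0 → x ∈ Zp I →
      (∀ y ∈ E, ∀ c : K, c ≠ 0 → (fun i => c * x i) ≠ y) →
      (FUAP {n | itv F x n ∈ Zp J} ∧ ∃ n k : ℕ, 0 < k ∧ ∀ t, itv F x (n + k * t) ∈ Zp J) ∨
        ∃ (A : Set ℕ) (T : Fin s → Set ℕ),
        FUAP A ∧ ((∀ q ∈ I.minimalPrimes, ¬ J ≤ q) → A = ∅) ∧
        {n | itv F x n ∈ Zp J} = A ∪ ⋃ i, T i ∧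
        ∀ i, ∀ m ∈ T i, ∀ n ∈ T i, m < n → 2 * (m : ℤ) ≤ n + C := by
  obtain ⟨M, c, hgrow, hgrow2, hprep⟩ := growth hd F hF h0
  obtain ⟨s, L, hmain⟩ := gapK hd F hF h0 I J hJ hinv H
  have hd1 : (1 : ℝ) < d := by exact_mod_cast (by omega : 1 < d)
  have hnz : ∀ x : Fin (N + 1) → K, x ≠ 0 → ∀ n, itv F x n ≠ 0 := by
    intro x hx n
    induction n with
    | zero => exact hx
    | succ n ih =>
      intro h
      apply ih
      have h1 := h0 (fun i => algebraMap K ℂ (itv F x n i)) fun i => by
        have h2 := congrFun h i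
        rw [itv_succ'] at h2
        have h3 := aeval_algebraMap_apply ℂ (itv F x n) (F i)
        refine h3.trans ?_
        change algebraMap K ℂ (eval (itv F x n) (F i)) = 0
        have h5 : eval (itv F x n) (F i) = 0 := h2
        rw [h5, map_zero]
      funext i
      have h4 := congrFun h1 i
      exact (map_eq_zero _).1 h4
  have hunion : ∀ (T : Fin s → Set ℕ) (B : Set ℕ),
      ⋃ i, (Fin.cons B T : Fin (s + 1) → Set ℕ) i = B ∪ ⋃ i, T i := by
    intro T B
    ext n
    simp only [Set.mem_iUnion, Set.mem_union]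
    constructor
    · rintro ⟨i, hi⟩
      induction i using Fin.cases with
      | zero => exact Or.inl hi
      | succ i => exact Or.inr ⟨i, hi⟩
    · rintro (h | ⟨i, hi⟩)
      · exact ⟨0, h⟩
      · exact ⟨i.succ, hi⟩
  refine ⟨s + 1, ⟨L + M, fun x hx hxI => ?_⟩, fun C => ?_⟩
  · rcases hmain x hx hxI with hnp | h | ⟨hnp, A, T, hA, hA0, hR, hT⟩
    · obtain ⟨-, m, k, hmk, hkM, e, he⟩ := hprep x hx hnp
      have he0 : e ≠ 0 := by
        rintro rfl
        apply hnz x hx k
        rw [he]
        funext i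
        simp
      by_cases hbig : ∃ n, M ≤ n ∧ itv F x n ∈ Zp J
      · left
        refine ⟨fuap_prep F hF J hJ x (hnz x hx) hnp, ?_⟩
        obtain ⟨n, hn, hnJ⟩ := hbig
        refine ⟨n, k - m, by omega, fun t => ?_⟩
        have h1 : ∀ j, m ≤ j → itv F x (j + (k - m)) = fun i => e ^ d ^ (j - m) * itv F x j i := by
          intro j hj
          rw [show j + (k - m) = k + (j - m) by omega, itv_add, he, itv_scale F hF, ← itv_add,
            show m + (j - m) = j by omega]
        induction t with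
        | zero => exact hnJ
        | succ t ih =>
          rw [show n + (k - m) * (t + 1) = (n + (k - m) * t) + (k - m) by ring, h1 _ (by
            have : 0 ≤ (k - m) * t := Nat.zero_le _
            omega)]
          exact (Zp_prop hJ (pow_ne_zero _ he0)).2 ih
      · right
        push Not at hbig
        refine ⟨∅, Fin.cons {n | itv F x n ∈ Zp J} (fun _ => ∅), fuap_empty, fun _ => rfl, ?_, ?_⟩
        · rw [hunion]
          simp
        · intro i
          induction i using Fin.cases with
          | zero =>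
            intro a ha b hb hab
            have h1 : b < M := by
              by_contra hlt
              exact hbig b (by omega) hb
            omega
          | succ i =>
            intro a ha
            exact ha.elim
    · exact Or.inl h
    · right
      refine ⟨A, Fin.cons ∅ T, hA, hA0, ?_, ?_⟩
      · rw [hunion, hR]
        simp
      intro i
      induction i using Fin.cases with
      | zero =>
        intro a ha
        exact ha.elim
      | succ i =>
        intro m hm n hn hmn
        have h1 := hT i m n hmn hm hn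
        by_cases hM : M ≤ m
        · have h2 := (hgrow x hx hnp m hM).trans h1
          have h3 : m - M ≤ n - m + L := by
            by_contra hlt
            push Not at hlt
            exact absurd h2 (not_le.2 (pow_lt_pow_right₀ hd1 hlt))
          omega
        · omega
  · obtain ⟨E, hE⟩ := northcott_pts (K := K) (N + 1) (c + (d : ℝ) ^ (L + C.natAbs))
    refine ⟨E, fun x hx hxI hxE => ?_⟩
    have h2 : c + (d : ℝ) ^ (L + C.natAbs) < logHeight x := by
      by_contra hle
      push Not at hle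
      obtain ⟨e, he, heE⟩ := hE x hx hle
      exact hxE _ heE e he rfl
    have hpos : (0 : ℝ) < (d : ℝ) ^ (L + C.natAbs) := by positivity
    rcases hmain x hx hxI with hnp | h | ⟨hnp, A, T, hA, hA0, hR, hT⟩
    · have := (hprep x hx hnp).1
      linarith
    · exact Or.inl h
    · right
      refine ⟨A, Fin.cons ∅ T, hA, hA0, ?_, ?_⟩
      · rw [hunion, hR]
        simp
      intro i
      induction i using Fin.cases with
      | zero =>
        intro a ha
        exact ha.elim
      | succ i =>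
        intro m hm n hn hmn
        have h1 := hT i m n hmn hm hn
        have h3 := (hgrow2 x m).trans h1
        have h4 : (d : ℝ) ^ m * (d : ℝ) ^ (L + C.natAbs) < (d : ℝ) ^ (n - m + L) := by
          refine lt_of_lt_of_le ?_ h3
          exact mul_lt_mul_of_pos_left (by linarith) (by positivity)
        rw [← pow_add] at h4
        have h5 := (pow_lt_pow_iff_right₀ hd1).1 h4
        omega

/-- The intersection of a closed set of dimension at most two with a hypersurface. -/
theorem drop {n : ℕ} (q : Ideal (MvPolynomial (Fin n) K)) (hq : q.IsPrime)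
    (hrel : ∀ i : Fin 4 → Fin n, ∃ P : MvPolynomial (Fin 4) K, P ≠ 0 ∧
      aeval (fun t => (X (i t) : MvPolynomial (Fin n) K)) P ∈ q)
    (G : MvPolynomial (Fin n) K) (hG : G ∉ q) (i : Fin 3 → Fin n) :
    ∃ P : MvPolynomial (Fin 3) K, P ≠ 0 ∧
      aeval (fun t => (X (i t) : MvPolynomial (Fin n) K)) P ∈ q ⊔ Ideal.span {G} := by
  classical
  set φ : MvPolynomial (Fin 3) K →ₐ[K] (MvPolynomial (Fin n) K ⧸ q) :=
    (Ideal.Quotient.mkₐ K q).comp (aeval fun t => X (i t)) with hφdef
  have hφX : ∀ t, φ (X t) = Ideal.Quotient.mk q (X (i t)) := fun t => by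
    rw [hφdef, AlgHom.comp_apply, aeval_X]
    rfl
  by_cases hinj : Function.Injective φ
  swap
  · obtain ⟨P, hPp, hP⟩ : ∃ P, φ P = 0 ∧ P ≠ 0 := by
      rw [injective_iff_map_eq_zero] at hinj
      push Not at hinj
      exact hinj
    exact ⟨P, hP, le_sup_left (α := Ideal (MvPolynomial (Fin n) K))
      (Ideal.Quotient.eq_zero_iff_mem.1 hPp)⟩
  let _ : Algebra (MvPolynomial (Fin 3) K) (MvPolynomial (Fin n) K ⧸ q) := φ.toRingHom.toAlgebra
  have hmap : ∀ x, algebraMap (MvPolynomial (Fin 3) K) (MvPolynomial (Fin n) K ⧸ q) x = φ x :=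
    fun x => rfl
  have : IsScalarTower K (MvPolynomial (Fin 3) K) (MvPolynomial (Fin n) K ⧸ q) :=
    IsScalarTower.of_algebraMap_eq fun x => by
      rw [hmap, MvPolynomial.algebraMap_eq]
      exact (φ.commutes x).symm
  have : FaithfulSMul (MvPolynomial (Fin 3) K) (MvPolynomial (Fin n) K ⧸ q) :=
    (faithfulSMul_iff_algebraMap_injective _ _).2 hinj
  have hX : ∀ l, IsAlgebraic (MvPolynomial (Fin 3) K) (Ideal.Quotient.mk q (X l)) := by
    intro l
    obtain ⟨P, hP, hPq⟩ := hrel (Fin.cons l i)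
    refine ⟨finSuccEquiv K 3 P,
      fun h => hP ((finSuccEquiv K 3).injective (by rw [h, map_zero])), ?_⟩
    have h1 : ∀ Q : MvPolynomial (Fin 4) K, Polynomial.aeval (Ideal.Quotient.mk q (X l))
        (finSuccEquiv K 3 Q) = Ideal.Quotient.mk q
          (aeval (fun t => (X ((Fin.cons l i : Fin 4 → Fin n) t) : MvPolynomial (Fin n) K)) Q) := by
      intro Q
      induction Q using MvPolynomial.induction_on with
      | C a =>
        rw [finSuccEquiv_apply]
        simp only [eval₂Hom_C, RingHom.comp_apply, Polynomial.aeval_C, aeval_C]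
        rw [hmap]
        exact φ.commutes a
      | add p q hp hq => rw [map_add, map_add, hp, hq, map_add, map_add]
      | mul_X p m hp =>
        rw [map_mul, map_mul, hp, map_mul, map_mul, aeval_X]
        congr 1
        refine Fin.cases ?_ (fun j => ?_) m
        · rw [finSuccEquiv_X_zero, Polynomial.aeval_X]
          rfl
        · rw [finSuccEquiv_X_succ, Polynomial.aeval_C, hmap, hφX]
          rfl
    rw [h1]
    exact Ideal.Quotient.eq_zero_iff_mem.2 hPq
  have halg : ∀ Q : MvPolynomial (Fin n) K,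
      IsAlgebraic (MvPolynomial (Fin 3) K) (Ideal.Quotient.mk q Q) := by
    intro Q
    induction Q using MvPolynomial.induction_on with
    | C a =>
      have h1 : Ideal.Quotient.mk q (C a) = algebraMap (MvPolynomial (Fin 3) K) _ (C a) := by
        rw [hmap]
        exact (φ.commutes a).symm
      rw [h1]
      exact isAlgebraic_algebraMap _
    | add p q hp hq => rw [map_add]; exact hp.add hq
    | mul_X p m hp => rw [map_mul]; exact hp.mul (hX m)
  have hg : Ideal.Quotient.mk q G ≠ 0 := fun h => hG (Ideal.Quotient.eq_zero_iff_mem.1 h)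
  obtain ⟨r, hr, hdvd⟩ := (halg G).exists_nonzero_dvd (mem_nonZeroDivisors_of_ne_zero hg)
  refine ⟨r, hr, ?_⟩
  obtain ⟨h, hh⟩ := hdvd
  obtain ⟨h', rfl⟩ := Ideal.Quotient.mk_surjective h
  rw [hmap] at hh
  have h2 : aeval (fun t => (X (i t) : MvPolynomial (Fin n) K)) r - G * h' ∈ q := by
    rw [← Ideal.Quotient.eq_zero_iff_mem, map_sub, map_mul, ← hh]
    exact sub_self _
  have h3 : G * h' ∈ Ideal.span {G} :=
    Ideal.mul_mem_right _ _ (Ideal.subset_span rfl)
  have h4 := Submodule.add_mem_sup h2 h3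
  rwa [sub_add_cancel] at h4

end number

section descent

variable {K : Type} [Field K] [Algebra K ℂ]

/-- A linear functional applied to the coefficients. -/
noncomputable def fn {σ : Type} (l : ℂ →ₗ[K] K) (P : MvPolynomial σ ℂ) : MvPolynomial σ K :=
  ∑ m ∈ P.support, monomial m (l (coeff m P))

lemma eval_fn {σ : Type} [Finite σ] (l : ℂ →ₗ[K] K) (P : MvPolynomial σ ℂ) (y : σ → K) :
    eval y (fn l P) = l (eval (fun i => algebraMap K ℂ (y i)) P) := by
  classical
  have := Fintype.ofFinite σ
  rw [fn, map_sum, eval_eq', map_sum]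
  refine Finset.sum_congr rfl fun m _ => ?_
  rw [eval_monomial, Finsupp.prod_fintype _ _ (fun _ => pow_zero _)]
  have h1 : coeff m P * ∏ i, algebraMap K ℂ (y i) ^ m i = (∏ i, y i ^ m i) • coeff m P := by
    rw [Algebra.smul_def, map_prod, mul_comm]
    congr 1
    exact Finset.prod_congr rfl fun i _ => (map_pow _ _ _).symm
  rw [h1, map_smul, smul_eq_mul, mul_comm]

lemma coeff_fn {σ : Type} (l : ℂ →ₗ[K] K) (P : MvPolynomial σ ℂ) (m : σ →₀ ℕ) :
    coeff m (fn l P) = l (coeff m P) := by
  classical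
  rw [fn, coeff_sum]
  simp only [coeff_monomial]
  rw [Finset.sum_ite_eq']
  split_ifs with h
  · rfl
  · rw [notMem_support_iff.1 h, map_zero]

lemma fn_ne {σ : Type} (P : MvPolynomial σ ℂ) (hP : P ≠ 0) : ∃ l : ℂ →ₗ[K] K, fn l P ≠ 0 := by
  obtain ⟨m, hm⟩ := ne_zero_iff.1 hP
  by_contra hno
  push Not at hno
  apply hm
  rw [← Module.forall_dual_apply_eq_zero_iff K]
  intro l
  rw [← coeff_fn l P m, hno l, coeff_zero]

lemma eval_zero_iff {σ : Type} [Finite σ] (P : MvPolynomial σ ℂ) (y : σ → K) :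
    eval (fun i => algebraMap K ℂ (y i)) P = 0 ↔ ∀ l : ℂ →ₗ[K] K, eval y (fn l P) = 0 := by
  constructor
  · intro h l
    rw [eval_fn, h, map_zero]
  · intro h
    rw [← Module.forall_dual_apply_eq_zero_iff K]
    intro l
    have := h l
    rwa [eval_fn] at this

/-- The polynomials over `K` which vanish at the `K`-rational points of a set. -/
def idl {n : ℕ} (V : Set (Fin n → ℂ)) : Ideal (MvPolynomial (Fin n) K) where
  carrier := {P | ∀ y : Fin n → K, (fun i => algebraMap K ℂ (y i)) ∈ V → eval y P = 0}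
  add_mem' := fun ha hb y hy => by rw [map_add, ha y hy, hb y hy, add_zero]
  zero_mem' := fun y _ => map_zero _
  smul_mem' := fun c P hP y hy => by rw [smul_eq_mul, map_mul, hP y hy, mul_zero]

lemma mem_idl {n : ℕ} {V : Set (Fin n → ℂ)} {P : MvPolynomial (Fin n) K} :
    P ∈ idl V ↔ ∀ y : Fin n → K, (fun i => algebraMap K ℂ (y i)) ∈ V → eval y P = 0 := Iff.rfl

/-- If a polynomial vanishes on a line without the origin, so do its homogeneous components. -/
lemma comp_vanish' {L : Type} [Field L] [Infinite L] {n : ℕ} (P : MvPolynomial (Fin n) L)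
    (y : Fin n → L) (h : ∀ c : L, c ≠ 0 → eval (fun i => c * y i) P = 0) (m : ℕ) :
    eval y (homogeneousComponent m P) = 0 := by
  classical
  set q : Polynomial L := ∑ r ∈ Finset.range (P.totalDegree + 1),
    Polynomial.monomial r (eval y (homogeneousComponent r P)) with hq
  have h1 : ∀ c : L, c ≠ 0 → q.eval c = 0 := by
    intro c hc
    rw [hq, Polynomial.eval_finsetSum, ← h c hc]
    conv_rhs => rw [← sum_homogeneousComponent P]
    rw [map_sum]
    refine Finset.sum_congr rfl fun r _ => ?_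
    have h2 := aeval_scale (homogeneousComponent r P) (homogeneousComponent_isHomogeneous r P) c y
    rw [Polynomial.eval_monomial, mul_comm]
    exact h2.symm
  have h2 : q * Polynomial.X = 0 := Polynomial.funext fun c => by
    rw [Polynomial.eval_mul, Polynomial.eval_X, Polynomial.eval_zero]
    by_cases hc : c = 0
    · rw [hc, mul_zero]
    · rw [h1 c hc, zero_mul]
  have h2' : q = 0 := (mul_eq_zero.1 h2).resolve_right Polynomial.X_ne_zero
  by_cases hm : m ∈ Finset.range (P.totalDegree + 1)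
  · have h3 : q.coeff m = eval y (homogeneousComponent m P) := by
      rw [hq, Polynomial.finsetSum_coeff]
      simp only [Polynomial.coeff_monomial]
      rw [Finset.sum_ite_eq' _ m, if_pos hm]
    rw [← h3, h2', Polynomial.coeff_zero]
  · rw [homogeneousComponent_eq_zero m P (by
      rw [Finset.mem_range] at hm
      omega), map_zero]

lemma idl_hom [Infinite K] {n : ℕ} {V : Set (Fin n → ℂ)}
    (hV : ∀ z ∈ V, ∀ c : ℂ, c ≠ 0 → (fun i => c * z i) ∈ V) : HomI (idl (K := K) V) := by
  intro P hP m y hy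
  refine comp_vanish' P y (fun c hc => hP _ ?_) m
  have h1 := hV _ hy (algebraMap K ℂ c) (by rwa [Ne, map_eq_zero])
  convert h1 using 1
  funext i
  rw [map_mul]

lemma idl_rel {n m : ℕ} {V : Set (Fin n → ℂ)} (i : Fin m → Fin n)
    (h : ∃ P : MvPolynomial (Fin m) ℂ, P ≠ 0 ∧ ∀ z ∈ V, eval (fun t => z (i t)) P = 0) :
    ∃ P : MvPolynomial (Fin m) K, P ≠ 0 ∧
      aeval (fun t => (X (i t) : MvPolynomial (Fin n) K)) P ∈ idl (K := K) V := by
  obtain ⟨P, hP, hPV⟩ := h
  obtain ⟨l, hl⟩ := fn_ne (K := K) P hP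
  refine ⟨fn l P, hl, fun y hy => ?_⟩
  let ev : MvPolynomial (Fin n) K →ₐ[K] K := aeval y
  have h1 : ev (aeval (fun t => (X (i t) : MvPolynomial (Fin n) K)) (fn l P)) =
      aeval (fun t => y (i t)) (fn l P) := by
    rw [← AlgHom.comp_apply, comp_aeval]
    congr 2
    funext t
    exact aeval_X y (i t)
  have h2 : aeval (fun t => y (i t)) (fn l P) = eval (fun t => y (i t)) (fn l P) := rfl
  change ev (aeval (fun t => (X (i t) : MvPolynomial (Fin n) K)) (fn l P)) = 0
  rw [h1, h2, eval_fn, hPV _ hy, map_zero]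

end descent

end Pool.Agent.K6.H53.GP
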