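import Mathlib
import Pool.Agent.K6.H53.GP.Ds

set_option autoImplicit false

/-!
# The gap principle for complex closed sets and points over a number field
-/

namespace Pool.Agent.K6.H53.GP

open MvPolynomial

/-- A number field which contains the coefficients. -/
theorem field_of_def {N : ℕ} (f : Fin (N + 1) → MvPolynomial (Fin (N + 1)) ℂ)
    (halg : ∀ i κ, IsAlgebraic ℚ (coeff κ (f i))) (K0 : IntermediateField ℚ ℂ)
    (hK0 : FiniteDimensional ℚ K0) : ∃ K : IntermediateField ℚ ℂ, K0 ≤ K ∧ FiniteDimensional ℚ K ∧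
      ∃ F : Fin (N + 1) → MvPolynomial (Fin (N + 1)) K, ∀ i, map (algebraMap K ℂ) (F i) = f i := by
  classical
  let s : Finset ℂ := Finset.univ.biUnion fun i => (f i).coeffs
  have hfin : FiniteDimensional ℚ (IntermediateField.adjoin ℚ (s : Set ℂ)) := by
    apply IntermediateField.finiteDimensional_adjoin
    intro x hx
    simp only [s, Finset.coe_biUnion, Set.mem_iUnion] at hx
    obtain ⟨i, -, hx⟩ := hx
    obtain ⟨m, -, rfl⟩ := mem_coeffs_iff.1 (Finset.mem_coe.1 hx)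
    exact (halg i m).isIntegral
  refine ⟨K0 ⊔ IntermediateField.adjoin ℚ (s : Set ℂ), le_sup_left,
    IntermediateField.finiteDimensional_sup _ _, ?_⟩
  set K := K0 ⊔ IntermediateField.adjoin ℚ (s : Set ℂ) with hK
  have h1 : ∀ i, ∃ F : MvPolynomial (Fin (N + 1)) K, map (algebraMap K ℂ) F = f i := by
    intro i
    have h2 : f i ∈ Set.range (map (σ := Fin (N + 1)) (algebraMap K ℂ)) := by
      rw [mem_range_map_iff_coeffs_subset]
      intro c hc
      have h3 : c ∈ K := by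
        apply (le_sup_right : IntermediateField.adjoin ℚ (s : Set ℂ) ≤ K)
        apply IntermediateField.subset_adjoin
        simp only [s, Finset.coe_biUnion, Set.mem_iUnion]
        exact ⟨i, by simp, hc⟩
      exact ⟨⟨c, h3⟩, rfl⟩
    exact h2
  choose F hF using h1
  exact ⟨F, hF⟩

section

variable {K : Type} [Field K] [Algebra K ℂ]

lemma orbit_map {n : ℕ} (f : Fin n → MvPolynomial (Fin n) ℂ) (F : Fin n → MvPolynomial (Fin n) K)
    (hF : ∀ i, map (algebraMap K ℂ) (F i) = f i) (x : Fin n → K) (k : ℕ) :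
    (fun z : Fin n → ℂ => fun i => eval z (f i))^[k] (fun i => algebraMap K ℂ (x i)) =
      fun i => algebraMap K ℂ (itv F x k i) := by
  induction k with
  | zero => rfl
  | succ k ih =>
    rw [Function.iterate_succ_apply', ih]
    funext i
    change eval _ (f i) = algebraMap K ℂ (eval (itv F x k) (F i))
    rw [← hF i, eval_map]
    exact (eval₂_comp (algebraMap K ℂ) (itv F x k) (F i)).symm

end

/-- A closed set given by forms. -/
structure Closed {n : ℕ} (V : Set (Fin n → ℂ)) : Prop where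
  ne : ∀ z ∈ V, z ≠ 0
  smul : ∀ z ∈ V, ∀ c : ℂ, c ≠ 0 → (fun i => c * z i) ∈ V
  eqs : ∃ S : Set (MvPolynomial (Fin n) ℂ), V = {z | z ≠ 0 ∧ ∀ g ∈ S, eval z g = 0}

lemma Closed.mem {K : Type} [Field K] [Algebra K ℂ] {N : ℕ} {V : Set (Fin (N + 1) → ℂ)}
    (hV : Closed V) {y : Fin (N + 1) → K} (hy : y ≠ 0) :
    (fun i => algebraMap K ℂ (y i)) ∈ V ↔ y ∈ Zp (idl (K := K) V) := by
  constructor
  · exact fun h P hP => hP y h
  · intro h
    obtain ⟨S, hS⟩ := hV.eqs
    rw [hS]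
    refine ⟨fun h0 => hy ?_, fun g hg => ?_⟩
    · funext i
      exact (map_eq_zero _).1 (congrFun h0 i)
    · rw [eval_zero_iff]
      intro l
      refine h _ fun y' hy' => ?_
      rw [hS] at hy'
      exact (eval_zero_iff g y').1 (hy'.2 g hg) l

theorem core {N d : ℕ} (hd : 2 ≤ d) (f : Fin (N + 1) → MvPolynomial (Fin (N + 1)) ℂ)
    (hf : ∀ i, (f i).IsHomogeneous d)
    (hendo : ∀ x : Fin (N + 1) → ℂ, (∀ i, eval x (f i) = 0) → x = 0)
    (K : IntermediateField ℚ ℂ) (hK : FiniteDimensional ℚ K)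
    (F : Fin (N + 1) → MvPolynomial (Fin (N + 1)) K) (hF : ∀ i, map (algebraMap K ℂ) (F i) = f i)
    (V : Set (Fin (N + 1) → ℂ)) (hV : Closed V)
    (I : Ideal (MvPolynomial (Fin (N + 1)) K)) (hinv : ∀ G ∈ I, aeval F G ∈ I)
    (H : ∀ q ∈ I.minimalPrimes, idl V ≤ q ∨ ∀ p ∈ (q ⊔ idl V).minimalPrimes, Curve p)
    (X : Set (Fin (N + 1) → ℂ))
    (hX : ∀ x : Fin (N + 1) → K, (fun i => algebraMap K ℂ (x i)) ∈ X → x ≠ 0 ∧ x ∈ Zp I) :
    ∃ s : ℕ, (∃ C : ℤ, ∀ a ∈ X, (∀ i, a i ∈ K) →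
      (FUAP {n | (fun z : Fin (N + 1) → ℂ => fun i => eval z (f i))^[n] a ∈ V} ∧
        ∃ n k : ℕ, 0 < k ∧ ∀ t,
          (fun z : Fin (N + 1) → ℂ => fun i => eval z (f i))^[n + k * t] a ∈ V) ∨
        ∃ (A : Set ℕ) (T : Fin s → Set ℕ), FUAP A ∧
        ((∀ q ∈ I.minimalPrimes, ¬ idl V ≤ q) → A = ∅) ∧
        {n | (fun z : Fin (N + 1) → ℂ => fun i => eval z (f i))^[n] a ∈ V} = A ∪ ⋃ i, T i ∧
        ∀ i, ∀ m ∈ T i, ∀ n ∈ T i, m < n → 2 * (m : ℤ) ≤ n + C) ∧
    ∀ C : ℤ, ∃ E : Finset (Fin (N + 1) → ℂ), ∀ a ∈ X, (∀ i, a i ∈ K) →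
      (∀ e ∈ E, ∀ c : ℂ, a ≠ c • e) →
      (FUAP {n | (fun z : Fin (N + 1) → ℂ => fun i => eval z (f i))^[n] a ∈ V} ∧
        ∃ n k : ℕ, 0 < k ∧ ∀ t,
          (fun z : Fin (N + 1) → ℂ => fun i => eval z (f i))^[n + k * t] a ∈ V) ∨
        ∃ (A : Set ℕ) (T : Fin s → Set ℕ), FUAP A ∧
        ((∀ q ∈ I.minimalPrimes, ¬ idl V ≤ q) → A = ∅) ∧
        {n | (fun z : Fin (N + 1) → ℂ => fun i => eval z (f i))^[n] a ∈ V} = A ∪ ⋃ i, T i ∧
        ∀ i, ∀ m ∈ T i, ∀ n ∈ T i, m < n → 2 * (m : ℤ) ≤ n + C := by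
  classical
  have hnf : NumberField K := { to_charZero := inferInstance, to_finiteDimensional := hK }
  have hinjK : Function.Injective (algebraMap K ℂ) := (algebraMap K ℂ).injective
  have hFhom : ∀ i, (F i).IsHomogeneous d := fun i => by
    have h1 := hf i
    rw [← hF i] at h1
    exact h1.of_map hinjK
  have h0 : ∀ z : Fin (N + 1) → ℂ, (∀ i, aeval z (F i) = 0) → z = 0 := by
    intro z hz
    apply hendo
    intro i
    rw [← hF i, eval_map]
    exact hz i
  obtain ⟨s, ⟨C, hC⟩, hE⟩ := gapK2 hd F hFhom h0 I (idl V) (idl_hom hV.smul) hinv H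
  have hset : ∀ x : Fin (N + 1) → K, x ≠ 0 →
      {n | (fun z : Fin (N + 1) → ℂ => fun i => eval z (f i))^[n]
        (fun i => algebraMap K ℂ (x i)) ∈ V} = {n | itv F x n ∈ Zp (idl V)} := by
    intro x hx
    have hnz : ∀ n, itv F x n ≠ 0 := by
      intro n
      induction n with
      | zero => exact hx
      | succ n ih =>
        intro h
        apply ih
        have h1 := h0 (fun i => algebraMap K ℂ (itv F x n i)) fun i => by
          have h2 := congrFun h i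
          rw [itv_succ'] at h2
          have h3 := aeval_algebraMap_apply ℂ (itv F x n) (F i)
          refine h3.trans ?_
          change algebraMap K ℂ (eval (itv F x n) (F i)) = 0
          have h5 : eval (itv F x n) (F i) = 0 := h2
          rw [h5, map_zero]
        funext i
        have h4 := congrFun h1 i
        exact (map_eq_zero _).1 h4
    ext n
    rw [Set.mem_ofPred_eq, Set.mem_ofPred_eq, orbit_map f F hF x n]
    exact hV.mem (hnz n)
  have hset' : ∀ x : Fin (N + 1) → K, x ≠ 0 → ∀ n, itv F x n ∈ Zp (idl V) →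
      (fun z : Fin (N + 1) → ℂ => fun i => eval z (f i))^[n]
        (fun i => algebraMap K ℂ (x i)) ∈ V := by
    intro x hx n hn
    have h1 : n ∈ {n | itv F x n ∈ Zp (idl V)} := hn
    rw [← hset x hx] at h1
    exact h1
  have hlift : ∀ a : Fin (N + 1) → ℂ, (∀ i, a i ∈ K) →
      ∃ x : Fin (N + 1) → K, a = fun i => algebraMap K ℂ (x i) := fun a ha =>
    ⟨fun i => ⟨a i, ha i⟩, rfl⟩
  refine ⟨s, ⟨C, fun a ha haK => ?_⟩, fun C => ?_⟩
  · obtain ⟨x, rfl⟩ := hlift a haK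
    obtain ⟨hx, hxI⟩ := hX x ha
    rw [hset x hx]
    refine (hC x hx hxI).imp ?_ id
    rintro ⟨h1, n, k, hk, h2⟩
    exact ⟨h1, n, k, hk, fun t => hset' x hx _ (h2 t)⟩
  · obtain ⟨E, hE'⟩ := hE C
    refine ⟨E.image fun y i => algebraMap K ℂ (y i), fun a ha haK haE => ?_⟩
    obtain ⟨x, rfl⟩ := hlift a haK
    obtain ⟨hx, hxI⟩ := hX x ha
    rw [hset x hx]
    refine (hE' x hx hxI fun y hy c hc hcy => ?_).imp (fun ⟨h1, n, k, hk, h2⟩ =>
      ⟨h1, n, k, hk, fun t => hset' x hx _ (h2 t)⟩) id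
    refine haE _ (Finset.mem_image_of_mem _ hy) (algebraMap K ℂ c)⁻¹ ?_
    funext i
    rw [Pi.smul_apply, smul_eq_mul, ← hcy, map_mul, inv_mul_cancel_left₀]
    rwa [Ne, map_eq_zero]

/-- The count of the elements of a set with gaps. -/
theorem count_gapped (C : ℤ) : ∃ C' : ℕ, ∀ T : Set ℕ,
    (∀ m ∈ T, ∀ n ∈ T, m < n → 2 * (m : ℤ) ≤ n + C) → ∀ x : ℕ,
      {n ∈ T | n ≤ x}.ncard ≤ Nat.log 2 x + C' := by
  classical
  set c := C.natAbs with hc
  refine ⟨c + 2, fun T hT x => ?_⟩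
  have hfin : ∀ y : ℕ, {n ∈ T | c < n ∧ n ≤ y}.Finite :=
    fun y => (Set.finite_le_nat y).subset fun n hn => hn.2.2
  have key : ∀ x : ℕ, {n ∈ T | c < n ∧ n ≤ x}.ncard ≤ Nat.log 2 (x - c) + 1 := by
    intro x
    induction x using Nat.strong_induction_on with
    | _ x ih =>
      by_cases hne : {n ∈ T | c < n ∧ n ≤ x}.Nonempty
      swap
      · rw [Set.not_nonempty_iff_eq_empty] at hne
        rw [hne, Set.ncard_empty]
        omega
      obtain ⟨M, hM, hmax⟩ := Set.exists_max_image _ id (hfin x) hne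
      obtain ⟨hMT, hcM, hMx⟩ := hM
      set y := (M + c) / 2 with hy
      have hyx : y < x := by omega
      have hsub : {n ∈ T | c < n ∧ n ≤ x} ⊆ insert M {n ∈ T | c < n ∧ n ≤ y} := by
        intro n hn
        by_cases hnM : n = M
        · exact Or.inl hnM
        · right
          have h4 : n < M := lt_of_le_of_ne (hmax n hn) hnM
          have h5 := hT n hn.1 M hMT h4
          exact ⟨hn.1, hn.2.1, by omega⟩
      have h1 := Set.ncard_le_ncard hsub ((hfin y).insert M)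
      have h2 := Set.ncard_insert_le M {n ∈ T | c < n ∧ n ≤ y}
      have h3 := ih y hyx
      have hyc : y - c = (M - c) / 2 := by omega
      rw [hyc, Nat.log_div_base] at h3
      have h6 : Nat.log 2 (M - c) ≤ Nat.log 2 (x - c) := Nat.log_mono_right (by omega)
      by_cases h7 : 2 ≤ M - c
      · have h8 : 1 ≤ Nat.log 2 (M - c) := (Nat.log_pos_iff).2 ⟨h7, by norm_num⟩
        omega
      · have h9 : {n ∈ T | c < n ∧ n ≤ y} = ∅ := by
          rw [Set.eq_empty_iff_forall_notMem]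
          rintro n ⟨-, h10, h11⟩
          omega
        rw [h9] at h1 h2
        rw [Set.ncard_empty] at h2
        omega
  have h1 : {n ∈ T | n ≤ x} ⊆ Set.Iic c ∪ {n ∈ T | c < n ∧ n ≤ x} := by
    intro n hn
    by_cases h : n ≤ c
    · exact Or.inl h
    · exact Or.inr ⟨hn.1, not_le.1 h, hn.2⟩
  have h2 := Set.ncard_le_ncard h1 ((Set.finite_Iic c).union (hfin x))
  have h3 := Set.ncard_union_le (Set.Iic c) {n ∈ T | c < n ∧ n ≤ x}
  have h4 : (Set.Iic c).ncard = c + 1 := by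
    rw [← Finset.coe_Iic, Set.ncard_coe_finset, Nat.card_Iic]
  have h5 := key x
  have h6 : Nat.log 2 (x - c) ≤ Nat.log 2 x := Nat.log_mono_right (Nat.sub_le _ _)
  omega

/-- The count of the elements of a union of sets with gaps. -/
theorem count_union (s : ℕ) (C : ℤ) : ∃ C' : ℕ, ∀ T : Fin s → Set ℕ,
    (∀ i, ∀ m ∈ T i, ∀ n ∈ T i, m < n → 2 * (m : ℤ) ≤ n + C) → ∀ x : ℕ,
      {n ∈ ⋃ i, T i | n ≤ x}.ncard ≤ s * Nat.log 2 x + C' := by
  classical
  obtain ⟨C', hC'⟩ := count_gapped C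
  refine ⟨s * C', fun T hT x => ?_⟩
  have h1 : {n ∈ ⋃ i, T i | n ≤ x} = ⋃ i ∈ (Finset.univ : Finset (Fin s)), {n ∈ T i | n ≤ x} := by
    ext n
    simp only [Set.mem_ofPred_eq, Set.mem_iUnion, Finset.mem_univ, exists_prop, true_and]
    tauto
  rw [h1]
  refine (Finset.set_ncard_biUnion_le _ _).trans ?_
  refine (Finset.sum_le_card_nsmul _ _ _ fun i _ => hC' (T i) (hT i) x).trans ?_
  rw [Finset.card_univ, Fintype.card_fin, smul_eq_mul, mul_add]

end Pool.Agent.K6.H53.GP
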